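import Mathlib

/-!
MP_529e02_al. Brouwer's characterization of the Cantor set.
-/

namespace Pool.Agent.Lib.MP_529e02_al

open Set Topology

/-- **Brouwer's theorem**: a nonempty compact metrizable totally disconnected space without isolated points
is homeomorphic to the Cantor space. -/
theorem brouwer (X : Type*) [TopologicalSpace X] [CompactSpace X] [T2Space X]
    [SecondCountableTopology X] [TotallyDisconnectedSpace X] [PerfectSpace X] [Nonempty X] :
    Nonempty (X ≃ₜ (ℕ → Bool)) := by
  classical
  -- clopen sets separating the points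
  obtain ⟨A, hA, hsep⟩ : ∃ A : ℕ → Set X, (∀ n, IsClopen (A n)) ∧
      ∀ x y, x ≠ y → ∃ n, x ∈ A n ∧ y ∉ A n := by
    have hc : Countable (TopologicalSpace.Clopens X) :=
      TopologicalSpace.Clopens.countable_iff_secondCountable.2 inferInstance
    obtain ⟨e, he⟩ := exists_surjective_nat (TopologicalSpace.Clopens X)
    refine ⟨fun n => e n, fun n => (e n).isClopen, fun x y hxy => ?_⟩
    obtain ⟨U, hU, hxU, hyU⟩ := compact_exists_isClopen_in_isOpen (isOpen_compl_singleton (x := y))
      (show x ∈ ({y} : Set X)ᶜ from hxy)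
    obtain ⟨n, hn⟩ := he ⟨U, hU⟩
    refine ⟨n, ?_, ?_⟩
    · change x ∈ (e n : Set X)
      rw [hn]
      exact hxU
    · change y ∉ (e n : Set X)
      rw [hn]
      exact fun h => hyU h rfl
  let Cell := {K : Set X // IsClopen K ∧ K.Nonempty}
  have hsplit : ∀ (K : Cell) (n : ℕ), ∃ K' : Set X, IsClopen K' ∧ K' ⊆ K.1 ∧ K'.Nonempty ∧
      (K.1 \ K').Nonempty ∧ ((K.1 ∩ A n).Nonempty → (K.1 \ A n).Nonempty → K' = K.1 ∩ A n) := by
    rintro ⟨K, hK, hKn⟩ n
    by_cases h : (K ∩ A n).Nonempty ∧ (K \ A n).Nonempty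
    · refine ⟨K ∩ A n, hK.inter (hA n), inter_subset_left, h.1, ?_, fun _ _ => rfl⟩
      rw [sdiff_self_inter]
      exact h.2
    · obtain ⟨x, hx⟩ := hKn
      obtain ⟨y, hy, hyx⟩ := preperfect_iff_nhds.1 (PerfectSpace.univ_preperfect (α := X)) x trivial K
        (hK.isOpen.mem_nhds hx)
      obtain ⟨m, h1, h2⟩ := hsep x y hyx.symm
      exact ⟨K ∩ A m, hK.inter (hA m), inter_subset_left, ⟨x, hx, h1⟩, ⟨y, hy.1, fun h3 => h2 h3.2⟩,
        fun h3 h4 => absurd ⟨h3, h4⟩ h⟩
  choose S hS1 hS2 hS3 hS4 hS5 using hsplit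
  let nxt : Cell → ℕ → Bool → Cell := fun K n b =>
    if b then ⟨S K n, hS1 K n, hS3 K n⟩ else ⟨K.1 \ S K n, K.2.1.diff (hS1 K n), hS4 K n⟩
  have hnt : ∀ K n, (nxt K n true).1 = S K n := fun K n => rfl
  have hnf : ∀ K n, (nxt K n false).1 = K.1 \ S K n := fun K n => rfl
  have hns : ∀ K n b, (nxt K n b).1 ⊆ K.1 := by
    intro K n b
    cases b
    · rw [hnf]
      exact sdiff_subset
    · rw [hnt]
      exact hS2 K n
  let K0 : Cell := ⟨univ, isClopen_univ, univ_nonempty⟩
  let cx : X → ℕ → Cell := fun x n => Nat.rec K0 (fun n K => nxt K n (decide (x ∈ S K n))) n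
  have cx0 : ∀ x, cx x 0 = K0 := fun x => rfl
  have cxs : ∀ x n, cx x (n + 1) = nxt (cx x n) n (decide (x ∈ S (cx x n) n)) := fun x n => rfl
  let cb : (ℕ → Bool) → ℕ → Cell := fun b n => Nat.rec K0 (fun n K => nxt K n (b n)) n
  have cb0 : ∀ b, cb b 0 = K0 := fun b => rfl
  have cbs : ∀ b n, cb b (n + 1) = nxt (cb b n) n (b n) := fun b n => rfl
  have hmem : ∀ x n, x ∈ (cx x n).1 := by
    intro x n
    induction n with
    | zero => exact mem_univ x
    | succ n ih =>
      rw [cxs]
      by_cases h : x ∈ S (cx x n) n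
      · rw [decide_eq_true h, hnt]
        exact h
      · rw [decide_eq_false h, hnf]
        exact ⟨ih, h⟩
  have hloc : ∀ n x y, y ∈ (cx x n).1 → cx y n = cx x n := by
    intro n
    induction n with
    | zero => exact fun _ _ _ => rfl
    | succ n ih =>
      intro x y hy
      have h1 : cx y n = cx x n := ih x y (by
        rw [cxs] at hy
        exact hns _ _ _ hy)
      rw [cxs, cxs, h1]
      congr 1
      rw [cxs] at hy
      by_cases h : x ∈ S (cx x n) n
      · rw [decide_eq_true h, hnt] at hy
        rw [decide_eq_true h, decide_eq_true hy]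
      · rw [decide_eq_false h, hnf] at hy
        rw [decide_eq_false h, decide_eq_false hy.2]
  let f : X → ℕ → Bool := fun x n => decide (x ∈ S (cx x n) n)
  have hf : ∀ x n, f x n = decide (x ∈ S (cx x n) n) := fun x n => rfl
  have hcont : Continuous f := by
    rw [continuous_pi_iff]
    intro n
    rw [continuous_discrete_rng]
    intro b
    rw [isOpen_iff_mem_nhds]
    intro x hx
    refine Filter.mem_of_superset ((cx x (n + 1)).2.1.isOpen.mem_nhds (hmem x (n + 1))) ?_
    intro y hy
    have h1 : cx y n = cx x n := hloc n x y (by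
      rw [cxs] at hy
      exact hns _ _ _ hy)
    have hx' : f x n = b := hx
    change f y n = b
    rw [← hx', hf, hf, h1]
    rw [cxs] at hy
    by_cases h : x ∈ S (cx x n) n
    · rw [decide_eq_true h, hnt] at hy
      rw [decide_eq_true h, decide_eq_true hy]
    · rw [decide_eq_false h, hnf] at hy
      rw [decide_eq_false h, decide_eq_false hy.2]
  have hinj : Function.Injective f := by
    intro x y hxy
    by_contra hne
    have h1 : ∀ n, cx x n = cx y n := by
      intro n
      induction n with
      | zero => rfl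
      | succ n ih =>
        rw [cxs, cxs]
        have h2 := congrFun hxy n
        rw [hf, hf] at h2
        rw [h2, ih]
    obtain ⟨n, h2, h3⟩ := hsep x y hne
    have h4 := hS5 (cx x n) n ⟨x, hmem x n, h2⟩ ⟨y, by rw [h1 n]; exact hmem y n, h3⟩
    have h5 : decide (x ∈ S (cx x n) n) = decide (y ∈ S (cx y n) n) := congrFun hxy n
    have h6 := decide_eq_decide.1 h5
    rw [← h1 n, h4] at h6
    exact h3 (h6.1 ⟨hmem x n, h2⟩).2
  have hsurj : Function.Surjective f := by
    intro b
    have hanti : ∀ n, (cb b (n + 1)).1 ⊆ (cb b n).1 := by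
      intro n
      rw [cbs]
      exact hns _ _ _
    obtain ⟨x, hx⟩ := IsCompact.nonempty_iInter_of_sequence_nonempty_isCompact_isClosed
      (fun n => (cb b n).1) hanti (fun n => (cb b n).2.2) (cb b 0).2.1.isClosed.isCompact
      (fun n => (cb b n).2.1.isClosed)
    rw [mem_iInter] at hx
    have hd : ∀ n, cx x n = cb b n → decide (x ∈ S (cx x n) n) = b n := by
      intro n hn
      have h1 := hx (n + 1)
      simp only [cbs] at h1
      rw [hn]
      cases hb : b n
      · rw [hb, hnf] at h1
        exact decide_eq_false h1.2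
      · rw [hb, hnt] at h1
        exact decide_eq_true h1
    have h1 : ∀ n, cx x n = cb b n := by
      intro n
      induction n with
      | zero => rfl
      | succ n ih => rw [cxs, cbs, hd n ih, ih]
    refine ⟨x, funext fun n => ?_⟩
    rw [hf]
    exact hd n (h1 n)
  exact ⟨hcont.homeoOfEquivCompactToT2 (f := Equiv.ofBijective f ⟨hinj, hsurj⟩)⟩

/-- subsets of a metrizable space which are nonempty, compact, totally disconnected and without isolated
points are homeomorphic to the Cantor set -/
theorem homeomorph_cantorSet {X : Type*} [TopologicalSpace X] [TopologicalSpace.MetrizableSpace X]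
    {C : Set X} (h1 : C.Nonempty) (h2 : IsCompact C) (h3 : Preperfect C)
    (h4 : IsTotallyDisconnected C) : Nonempty (C ≃ₜ cantorSet) := by
  have : Nonempty C := h1.to_subtype
  have : CompactSpace C := isCompact_iff_compactSpace.1 h2
  have : TotallyDisconnectedSpace C := by
    rw [totallyDisconnectedSpace_subtype_iff]
    exact h4
  have : PerfectSpace C := by
    constructor
    rw [preperfect_iff_nhds]
    intro x _ U hU
    obtain ⟨V, hV, hVU⟩ := (mem_nhds_subtype C x U).1 hU
    obtain ⟨y, hy, hyx⟩ := preperfect_iff_nhds.1 h3 x.1 x.2 V hV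
    exact ⟨⟨y, hy.2⟩, ⟨hVU hy.1, trivial⟩, fun h => hyx (congrArg Subtype.val h)⟩
  have : TopologicalSpace.MetrizableSpace C := IsEmbedding.subtypeVal.metrizableSpace
  let _ := TopologicalSpace.metrizableSpaceMetric C
  have : SecondCountableTopology C := inferInstance
  obtain ⟨e⟩ := brouwer C
  exact ⟨e.trans cantorSetHomeomorphNatToBool.symm⟩

end Pool.Agent.Lib.MP_529e02_al
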