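import Mathlib

/-!
MP_529e02_al. In a compact metric space without isolated points a totally disconnected separator can be
enlarged to a Cantor set that separates.
-/

namespace Pool.Agent.Lib.MP_529e02_al

open Set Metric Topology Filter

/-- Cantor sets: nonempty compact totally disconnected sets without isolated points -/
def IsCantor {X : Type*} [TopologicalSpace X] (C : Set X) : Prop :=
  C.Nonempty ∧ IsCompact C ∧ Preperfect C ∧ IsTotallyDisconnected C

variable {X : Type*} [MetricSpace X] [CompactSpace X] [PerfectSpace X]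

/-- small Cantor sets exist everywhere -/
theorem exists_small_cantor (x : X) {r : ℝ} (hr : 0 < r) : ∃ C, IsCantor C ∧ C ⊆ ball x r := by
  have hP : Perfect (closure (ball x (r / 2))) := IsOpen.perfect_closure isOpen_ball
  obtain ⟨f, hf1, hf2, hf3⟩ := hP.exists_nat_bool_injection
    ⟨x, subset_closure (mem_ball_self (by positivity))⟩
  have hemb : IsClosedEmbedding f := hf2.isClosedEmbedding hf3
  refine ⟨range f, ⟨range_nonempty f, isCompact_range hf2, ?_, ?_⟩, hf1.trans ?_⟩
  · rw [preperfect_iff_nhds]
    rintro _ ⟨b, rfl⟩ U hU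
    have h1 : Tendsto (fun n : ℕ => Function.update b n (!b n)) atTop (𝓝 b) := by
      rw [tendsto_pi_nhds]
      intro k
      apply tendsto_const_nhds.congr'
      filter_upwards [eventually_gt_atTop k] with n hn
      rw [Function.update_of_ne (by omega)]
    have h2 := (hf2.tendsto b).comp h1
    obtain ⟨n, hn⟩ := (h2.eventually hU).exists
    refine ⟨_, ⟨hn, ⟨_, rfl⟩⟩, fun h => ?_⟩
    have h3 := congrFun (hf3 h) n
    simp only [Function.update_self] at h3
    cases hb : b n <;> simp [hb] at h3
  · rw [← image_univ, hemb.isEmbedding.isTotallyDisconnected_image]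
    exact isTotallyDisconnected_of_totallyDisconnectedSpace _
  · exact closure_ball_subset_closedBall.trans (closedBall_subset_ball (by linarith))

/-- **Theorem.** A totally disconnected closed separator can be replaced by a Cantor set. -/
theorem exists_cantor_separator {K U V : Set X} (hK : IsClosed K) (hKt : IsTotallyDisconnected K)
    (hU : IsOpen U) (hV : IsOpen V) (hUV : Disjoint U V) (hc : U ∪ V = Kᶜ) {u v : X} (hu : u ∈ U)
    (hv : v ∈ V) : ∃ C : Set X, IsCantor C ∧ ¬ IsPreconnected Cᶜ := by
  have hperf : Preperfect (univ : Set X) := PerfectSpace.univ_preperfect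
  have hne : Nonempty X := ⟨u⟩
  obtain ⟨w, hwU, hwu⟩ : ∃ w ∈ U, w ≠ u := by
    obtain ⟨w, hw, hwu⟩ := preperfect_iff_nhds.1 hperf u trivial U
      (hU.mem_nhds hu)
    exact ⟨w, hw.1, hwu⟩
  have hKU : ∀ x ∈ K, x ∉ U ∧ x ∉ V := by
    intro x hx
    constructor
    · intro h
      have : x ∈ Kᶜ := hc ▸ Or.inl h
      exact this hx
    · intro h
      have : x ∈ Kᶜ := hc ▸ Or.inr h
      exact this hx
  -- the enlarged separator
  set D : Set X := K ∪ {w} with hD
  have hDc : IsClosed D := hK.union isClosed_singleton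
  have hDt : IsTotallyDisconnected D := by
    intro T hT hTp
    by_cases h : w ∈ T
    · have h1 : T ⊆ {w} := by
        intro z hz
        by_contra hzw
        have hzK : z ∈ K := (hT hz).resolve_right hzw
        obtain ⟨y, hy, hy1, hy2⟩ := hTp U ({w}ᶜ) hU isOpen_compl_singleton (by
          intro y hy
          rcases hT hy with h2 | h2
          · exact Or.inr fun h3 => (hKU y h2).1 (by rw [mem_singleton_iff.1 h3]; exact hwU)
          · exact Or.inl (by rw [mem_singleton_iff.1 h2]; exact hwU)) ⟨w, h, hwU⟩ ⟨z, hz, hzw⟩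
        rcases hT hy with h2 | h2
        · exact (hKU y h2).1 hy1
        · exact hy2 h2
      exact subsingleton_singleton.anti h1
    · refine hKt T (fun z hz => ?_) hTp
      rcases hT hz with h2 | h2
      · exact h2
      · exact absurd (mem_singleton_iff.1 h2 ▸ hz) h
  have huD : u ∉ D := by
    rintro (h | h)
    · exact (hKU u h).1 hu
    · exact hwu (mem_singleton_iff.1 h).symm
  have hvD : v ∉ D := by
    rintro (h | h)
    · exact (hKU v h).2 hv
    · rw [mem_singleton_iff] at h
      exact disjoint_left.1 hUV hwU (h ▸ hv)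
  have hDn : D.Nonempty := ⟨w, Or.inr rfl⟩
  have hpos : ∀ x, x ∉ D → 0 < infDist x D := fun x hx => (hDc.notMem_iff_infDist_pos hDn).1 hx
  -- the part of the separator that needs help
  set D' : Set X := {k | k ∈ D ∧ k ∈ closure Dᶜ} with hD'
  have hwD' : w ∈ D' := by
    refine ⟨Or.inr rfl, mem_closure_iff_nhds.2 fun N hN => ?_⟩
    obtain ⟨y, hy, hyw⟩ := preperfect_iff_nhds.1 hperf w trivial (N ∩ U)
      (inter_mem hN (hU.mem_nhds hwU))
    refine ⟨y, hy.1.1, ?_⟩
    rintro (h | h)
    · exact (hKU y h).1 hy.1.2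
    · exact hyw h
  have : Nonempty D' := ⟨⟨w, hwD'⟩⟩
  obtain ⟨sq, hsq⟩ := TopologicalSpace.exists_dense_seq D'
  set k : ℕ → X := fun n => (sq (Nat.unpair n).1 : X) with hk
  have hkD : ∀ n, k n ∈ D' := fun n => (sq (Nat.unpair n).1).2
  have hex : ∀ (n : ℕ) (δ : ℝ), 0 < δ → ∃ x, x ∉ D ∧ dist x (k n) < 1 / ((n : ℝ) + 1) ∧
      infDist x D < δ := by
    intro n δ hδ
    obtain ⟨x, hx, hx2⟩ := Metric.mem_closure_iff.1 (hkD n).2 (min (1 / ((n : ℝ) + 1)) δ)
      (lt_min (by positivity) hδ)
    rw [dist_comm, lt_min_iff] at hx2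
    exact ⟨x, hx, hx2.1, lt_of_le_of_lt (infDist_le_dist_of_mem (hkD n).1) hx2.2⟩
  set δ0 : ℝ := min (infDist u D) (infDist v D) / 2 with hδ0
  have hδ0p : 0 < δ0 := by
    have := lt_min (hpos u huD) (hpos v hvD)
    positivity
  choose! g hg1 hg2 hg3 using hex
  let x : ℕ → X := fun n => Nat.rec (g 0 δ0) (fun n y => g (n + 1) (infDist y D / 2)) n
  have hx0 : x 0 = g 0 δ0 := rfl
  have hxs : ∀ n, x (n + 1) = g (n + 1) (infDist (x n) D / 2) := fun n => rfl
  have hxD : ∀ n, x n ∉ D := by
    intro n
    induction n with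
    | zero => exact hg1 0 δ0 hδ0p
    | succ n ih => exact hg1 (n + 1) _ (by have := hpos _ ih; positivity)
  set d : ℕ → ℝ := fun n => infDist (x n) D with hd
  have hdp : ∀ n, 0 < d n := fun n => hpos _ (hxD n)
  have hxk : ∀ n : ℕ, dist (x n) (k n) < 1 / ((n : ℝ) + 1) := by
    intro n
    cases n with
    | zero => exact hg2 0 δ0 hδ0p
    | succ n => exact hg2 (n + 1) _ (by have := hdp n; positivity)
  have hd0 : d 0 < δ0 := hg3 0 δ0 hδ0p
  have hds : ∀ n, d (n + 1) < d n / 2 := fun n => hg3 (n + 1) _ (by have := hdp n; positivity)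
  have hdlt : ∀ n j, d (n + j + 1) < d n / 2 := by
    intro n j
    induction j with
    | zero => exact hds n
    | succ j ih =>
      have h1 := hds (n + j + 1)
      have h2 := hdp (n + j + 1)
      have h3 : n + (j + 1) + 1 = n + j + 1 + 1 := by ring
      rw [h3]
      linarith
  have hdle : ∀ n, d n ≤ d 0 / 2 ^ n := by
    intro n
    induction n with
    | zero => simp
    | succ n ih =>
      have h1 := hds n
      rw [pow_succ, ← div_div]
      linarith
  have hdt : Tendsto d atTop (𝓝 0) := by
    refine squeeze_zero (fun n => (hdp n).le) hdle ?_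
    have h1 : Tendsto (fun n : ℕ => d 0 * (1 / 2 : ℝ) ^ n) atTop (𝓝 (d 0 * 0)) :=
      (tendsto_pow_atTop_nhds_zero_of_lt_one (by norm_num) (by norm_num)).const_mul _
    rw [mul_zero] at h1
    refine h1.congr fun n => ?_
    rw [one_div, inv_pow, div_eq_mul_inv]
  -- the small Cantor sets
  set r : ℕ → ℝ := fun n => min (d n / 4) (1 / ((n : ℝ) + 1)) with hr
  have hrp : ∀ n, 0 < r n := fun n => lt_min (by have := hdp n; positivity) (by positivity)
  choose Q hQ hQb using fun n => exists_small_cantor (x n) (hrp n)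
  have hQd : ∀ n, ∀ y ∈ Q n, 3 / 4 * d n < infDist y D ∧ infDist y D < 5 / 4 * d n := by
    intro n y hy
    have h1 : dist y (x n) < d n / 4 := (mem_ball.1 (hQb n hy)).trans_le (min_le_left _ _)
    have h2 := infDist_le_infDist_add_dist (s := D) (x := x n) (y := y)
    have h3 := infDist_le_infDist_add_dist (s := D) (x := y) (y := x n)
    rw [dist_comm] at h2
    have h4 : d n = infDist (x n) D := rfl
    constructor <;> linarith
  set C : Set X := D ∪ ⋃ n, Q n with hC
  have hQC : ∀ n, Q n ⊆ C := fun n => (subset_iUnion Q n).trans subset_union_right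
  -- the shells
  have hshell : ∀ n, ∀ y ∈ C, 3 / 4 * d n < infDist y D ∧ infDist y D < 5 / 4 * d n ∧ y ∈ Q n ∨
      infDist y D < 3 / 4 * d n ∨ 5 / 4 * d n < infDist y D := by
    intro n y hy
    rcases hy with hy | hy
    · right
      left
      rw [infDist_zero_of_mem hy]
      have := hdp n
      positivity
    · obtain ⟨m, hm⟩ := mem_iUnion.1 hy
      have h1 := hQd m y hm
      rcases lt_trichotomy m n with h | h | h
      · right
        right
        obtain ⟨j, rfl⟩ := Nat.exists_eq_add_of_lt h
        have h2 := hdlt m j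
        have h3 := hdp (m + j + 1)
        linarith [h1.1]
      · subst h
        exact Or.inl ⟨h1.1, h1.2, hm⟩
      · right
        left
        obtain ⟨j, rfl⟩ := Nat.exists_eq_add_of_lt h
        have h2 := hdlt n j
        have h3 := hdp (n + j + 1)
        linarith [h1.2]
  have hcont : Continuous fun y : X => infDist y D := continuous_infDist_pt D
  have hCcl : IsClosed C := by
    rw [← isOpen_compl_iff, isOpen_iff_mem_nhds]
    intro y hy
    have hyD : y ∉ D := fun h => hy (Or.inl h)
    have hyp := hpos y hyD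
    obtain ⟨n, hn⟩ := (hdt.eventually (gt_mem_nhds (show (0 : ℝ) < infDist y D / 5 by positivity))).exists
    have h1 : IsOpen ({z | infDist y D / 2 < infDist z D} ∩ (⋃ m ∈ Finset.range (n + 1), Q m)ᶜ) := by
      refine (isOpen_lt continuous_const hcont).inter (IsClosed.isOpen_compl (self := ?_))
      exact isClosed_biUnion_finset fun m _ => (hQ m).2.1.isClosed
    refine mem_of_superset (h1.mem_nhds ⟨?_, ?_⟩) ?_
    · simp only [mem_ofPred_eq]
      linarith
    · intro h
      obtain ⟨m, _, hm⟩ := mem_iUnion₂.1 h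
      exact hy (hQC m hm)
    · rintro z ⟨hz1, hz2⟩ (hz | hz)
      · simp only [mem_ofPred_eq] at hz1
        rw [infDist_zero_of_mem hz] at hz1
        linarith
      · obtain ⟨m, hm⟩ := mem_iUnion.1 hz
        simp only [mem_ofPred_eq] at hz1
        rcases Nat.lt_or_ge m (n + 1) with h | h
        · exact hz2 (mem_iUnion₂.2 ⟨m, Finset.mem_range.2 h, hm⟩)
        · obtain ⟨j, rfl⟩ := Nat.exists_eq_add_of_le h
          have h2 := (hQd _ z hm).2
          have h3 := hdlt n j
          have h4 : n + 1 + j = n + j + 1 := by ring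
          rw [h4] at h2
          linarith
  have hCt : IsTotallyDisconnected C := by
    intro T hT hTp
    by_cases h : ∃ n, (T ∩ Q n).Nonempty
    · obtain ⟨n, z, hzT, hzQ⟩ := h
      have hTQ : T ⊆ Q n := by
        intro y hy
        by_contra hyQ
        have hy2 : infDist y D < 3 / 4 * d n ∨ 5 / 4 * d n < infDist y D := by
          rcases hshell n y (hT hy) with h1 | h1
          · exact absurd h1.2.2 hyQ
          · exact h1
        obtain ⟨p, hp, hp1, hp2⟩ := hTp
          {y | 3 / 4 * d n < infDist y D ∧ infDist y D < 5 / 4 * d n}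
          {y | infDist y D < 3 / 4 * d n ∨ 5 / 4 * d n < infDist y D}
          ((isOpen_lt continuous_const hcont).inter (isOpen_lt hcont continuous_const))
          ((isOpen_lt hcont continuous_const).union (isOpen_lt continuous_const hcont)) (by
            intro q hq
            rcases hshell n q (hT hq) with h1 | h1
            · exact Or.inl ⟨h1.1, h1.2.1⟩
            · exact Or.inr h1) ⟨z, hzT, hQd n z hzQ⟩ ⟨y, hy, hy2⟩
        simp only [mem_ofPred_eq] at hp1 hp2
        rcases hp2 with h2 | h2
        · linarith [hp1.1]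
        · linarith [hp1.2]
      exact (hQ n).2.2.2 T hTQ hTp
    · refine hDt T (fun z hz => ?_) hTp
      rcases hT hz with h1 | h1
      · exact h1
      · obtain ⟨n, hn⟩ := mem_iUnion.1 h1
        exact absurd ⟨n, z, hz, hn⟩ h
  have hCp : Preperfect C := by
    rw [preperfect_iff_nhds]
    intro y hy N hN
    rcases hy with hy | hy
    · by_cases hyc : y ∈ closure Dᶜ
      · obtain ⟨ε, hε, hεN⟩ := Metric.mem_nhds_iff.1 hN
        obtain ⟨m, hm⟩ : ∃ m, dist (sq m : X) y < ε / 3 := by
          obtain ⟨z, hz, ⟨m, rfl⟩⟩ := Metric.dense_iff.1 hsq ⟨y, hy, hyc⟩ (ε / 3) (by positivity)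
          exact ⟨m, mem_ball.1 hz⟩
        obtain ⟨j, hj⟩ := exists_nat_one_div_lt (show (0 : ℝ) < ε / 3 by positivity)
        set n := Nat.pair m j with hn
        have hnj : j ≤ n := Nat.right_le_pair m j
        have h1 : 1 / ((n : ℝ) + 1) < ε / 3 := by
          refine lt_of_le_of_lt ?_ hj
          have : (j : ℝ) ≤ n := by exact_mod_cast hnj
          gcongr
        have h2 : k n = sq m := by
          simp only [hk, hn, Nat.unpair_pair]
        obtain ⟨c, hc⟩ := (hQ n).1
        have h3 : dist c (x n) < 1 / ((n : ℝ) + 1) := (mem_ball.1 (hQb n hc)).trans_le (min_le_right _ _)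
        have h4 := hxk n
        rw [h2] at h4
        have h5 : dist c y < ε := by
          have := dist_triangle4 c (x n) (sq m : X) y
          linarith
        refine ⟨c, ⟨hεN h5, hQC n hc⟩, ?_⟩
        rintro rfl
        have h6 := (hQd n c hc).1
        rw [infDist_zero_of_mem hy] at h6
        have := hdp n
        linarith
      · obtain ⟨z, hz, hzy⟩ := preperfect_iff_nhds.1 hperf y trivial
          (N ∩ (closure Dᶜ)ᶜ) (inter_mem hN (isClosed_closure.isOpen_compl.mem_nhds hyc))
        refine ⟨z, ⟨hz.1.1, Or.inl ?_⟩, hzy⟩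
        by_contra h
        exact hz.1.2 (subset_closure h)
    · obtain ⟨n, hn⟩ := mem_iUnion.1 hy
      obtain ⟨z, hz, hzy⟩ := preperfect_iff_nhds.1 (hQ n).2.2.1 y hn N hN
      exact ⟨z, ⟨hz.1, hQC n hz.2⟩, hzy⟩
  have hout : ∀ y, δ0 * 2 ≤ infDist y D → y ∉ C := by
    rintro y hy1 (hy | hy)
    · rw [infDist_zero_of_mem hy] at hy1
      linarith
    · obtain ⟨n, hn⟩ := mem_iUnion.1 hy
      have h1 := (hQd n y hn).2
      have h2 : d n ≤ d 0 := by
        rcases Nat.eq_zero_or_pos n with h | h
        · rw [h]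
        · obtain ⟨j, rfl⟩ := Nat.exists_eq_add_of_lt h
          have h3 := hdlt 0 j
          have h4 := hdp 0
          linarith
      linarith
  have hu2 : u ∉ C := hout u (by
    rw [hδ0]
    linarith [min_le_left (infDist u D) (infDist v D)])
  have hv2 : v ∉ C := hout v (by
    rw [hδ0]
    linarith [min_le_right (infDist u D) (infDist v D)])
  refine ⟨C, ⟨hDn.mono subset_union_left, hCcl.isCompact, hCp, hCt⟩, fun hcon => ?_⟩
  obtain ⟨y, hy, hy1, hy2⟩ := hcon U V hU hV (by
    intro y hy
    rw [hc]
    exact fun h => hy (Or.inl (Or.inl h))) ⟨u, hu2, hu⟩ ⟨v, hv2, hv⟩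
  exact disjoint_left.1 hUV hy1 hy2

end Pool.Agent.Lib.MP_529e02_al
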