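import Mathlib

/-!
MP_529e02_al. Foldable compact metric spaces: if an arc separates such a space, then a totally
disconnected compact set does.
-/

namespace Pool.Agent.Lib.MP_529e02_al

open Set Metric Topology

/-- Every point has arbitrarily small neighbourhoods `N` carrying a fold: a continuous map `r`, the identity
outside `N`, which misses a neighbourhood of the point and which agrees at every point with the identity or
with a fixed homeomorphism `t`; moreover `N` and its preimage under `t` cover the space. -/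
def Foldable (X : Type*) [TopologicalSpace X] : Prop :=
  ∀ (m : X) (N : Set X), IsOpen N → m ∈ N → ∃ (r : X → X) (t : X ≃ₜ X) (O : Set X),
    Continuous r ∧ (∀ x, x ∉ N → r x = x) ∧ (∀ x, r x = x ∨ r x = t x) ∧ IsOpen O ∧ m ∈ O ∧
    (∀ x, r x ∉ O) ∧ ∀ x, x ∈ N ∨ t x ∈ N

/-- pointwise controlled by finitely many homeomorphisms -/
def Ctl {X : Type*} [TopologicalSpace X] (R : X → X) : Prop :=
  ∃ H : Set (X ≃ₜ X), H.Finite ∧ ∀ x, ∃ h ∈ H, R x = h x

theorem Ctl.id {X : Type*} [TopologicalSpace X] : Ctl (fun x : X => x) :=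
  ⟨{Homeomorph.refl X}, finite_singleton _, fun _ => ⟨_, rfl, rfl⟩⟩

theorem Ctl.comp {X : Type*} [TopologicalSpace X] {R S : X → X} (hR : Ctl R) (hS : Ctl S) :
    Ctl (fun x => R (S x)) := by
  obtain ⟨H, hH, h1⟩ := hR
  obtain ⟨G, hG, h2⟩ := hS
  refine ⟨image2 (fun h g => g.trans h) H G, hH.image2 _ hG, fun x => ?_⟩
  obtain ⟨g, hg, hgx⟩ := h2 x
  obtain ⟨h, hh, hhx⟩ := h1 (S x)
  refine ⟨g.trans h, ⟨h, hh, g, hg, rfl⟩, ?_⟩
  change R (S x) = h (g x)
  rw [hhx, hgx]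

variable {X : Type*} [MetricSpace X] [CompactSpace X]

/-- every point of `F` is in a relatively clopen part of `F` contained in the ball of radius `ε` -/
def Frag (ε : ℝ) (F : Set X) : Prop :=
  ∀ x ∈ F, ∃ E, E ⊆ F ∧ x ∈ E ∧ IsClosed E ∧ IsClosed (F \ E) ∧ ∀ y ∈ E, dist x y < ε

omit [CompactSpace X] in
theorem Frag.mono {ε : ℝ} {F G : Set X} (hF : Frag ε F) (hG : IsClosed G) (hGF : G ⊆ F) :
    Frag ε G := by
  intro x hx
  obtain ⟨E, h1, h2, h3, h4, h5⟩ := hF x (hGF hx)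
  refine ⟨E ∩ G, inter_subset_right, ⟨h2, hx⟩, h3.inter hG, ?_, fun y hy => h5 y hy.1⟩
  have : G \ (E ∩ G) = (F \ E) ∩ G := by
    ext z
    simp only [mem_sdiff, mem_inter_iff, not_and]
    constructor
    · rintro ⟨h6, h7⟩
      exact ⟨⟨hGF h6, fun h => h7 h h6⟩, h6⟩
    · rintro ⟨⟨h6, h7⟩, h8⟩
      exact ⟨h8, fun h _ => h7 h⟩
  rw [this]
  exact h4.inter hG

/-- preconnected subsets have diameter less than `ε` -/
def Sml (ε : ℝ) (O : Set X) : Prop :=
  ∀ T, T ⊆ O → IsPreconnected T → ∀ x ∈ T, ∀ y ∈ T, dist x y < ε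

theorem frag_open {ε : ℝ} (hε : 0 < ε) {F W : Set X} (hF : IsClosed F) (hfr : Frag ε F)
    (hW : IsOpen W) (hFW : F ⊆ W) :
    ∃ O, IsOpen O ∧ F ⊆ O ∧ closure O ⊆ W ∧ Sml (4 * ε) O := by
  have hFc : IsCompact F := hF.isCompact
  choose! E hE1 hE2 hE3 hE4 hE5 using hfr
  have hsep : ∀ x ∈ F, ∃ G H : Set X, IsOpen G ∧ IsOpen H ∧ E x ⊆ G ∧ F \ E x ⊆ H ∧
      Disjoint G H ∧ ∀ y ∈ G, dist x y < 2 * ε := by
    intro x hx
    obtain ⟨G, H, h1, h2, h3, h4, h5⟩ := SeparatedNhds.of_isCompact_isCompact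
      (hE3 x hx).isCompact (hE4 x hx).isCompact disjoint_sdiff_right
    refine ⟨G ∩ ball x ε, H, h1.inter isOpen_ball, h2, ?_, h4, h5.mono_left inter_subset_left, ?_⟩
    · intro y hy
      exact ⟨h3 hy, by rw [mem_ball, dist_comm]; exact hE5 x hx y hy⟩
    · intro y hy
      have := mem_ball'.1 hy.2
      linarith
  choose! G H hG hH hEG hFH hGH hGd using hsep
  obtain ⟨I, hIF, hIc⟩ := hFc.elim_nhds_subcover (fun x => (F \ E x)ᶜ) (fun x hx =>
    (hE4 x hx).isOpen_compl.mem_nhds (fun h => h.2 (hE2 x hx)))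
  have hcov : ∀ z ∈ F, ∃ i ∈ I, z ∈ E i := by
    intro z hz
    obtain ⟨i, hi, hzi⟩ := mem_iUnion₂.1 (hIc hz)
    exact ⟨i, hi, by_contra fun h => hzi ⟨hz, h⟩⟩
  let O' : Set X := (⋂ i ∈ I, (G i ∪ H i)) ∩ (⋃ i ∈ I, G i) ∩ W
  have hO' : IsOpen O' := by
    refine ((isOpen_biInter_finset fun i hi => (hG i (hIF i hi)).union (hH i (hIF i hi))).inter
      (isOpen_biUnion fun i hi => hG i (hIF i hi))).inter hW
  have hFO' : F ⊆ O' := by
    intro z hz
    refine ⟨⟨mem_iInter₂.2 fun i hi => ?_, ?_⟩, hFW hz⟩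
    · by_cases h : z ∈ E i
      · exact Or.inl (hEG i (hIF i hi) h)
      · exact Or.inr (hFH i (hIF i hi) ⟨hz, h⟩)
    · obtain ⟨i, hi, hzi⟩ := hcov z hz
      exact mem_iUnion₂.2 ⟨i, hi, hEG i (hIF i hi) hzi⟩
  obtain ⟨O, h1, h2, h3⟩ := normal_exists_closure_subset hF hO' hFO'
  refine ⟨O, h1, h2, h3.trans inter_subset_right, ?_⟩
  intro T hT hTp x hx y hy
  have hTO' : T ⊆ O' := hT.trans (subset_closure.trans h3)
  obtain ⟨i, hi, hxi⟩ := mem_iUnion₂.1 (hTO' hx).1.2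
  have hsub : T ⊆ G i ∪ H i := fun z hz => mem_iInter₂.1 (hTO' hz).1.1 i hi
  have hTG : T ⊆ G i := by
    intro z hz
    by_contra hzG
    obtain ⟨w, _, hw⟩ := hTp (G i) (H i) (hG i (hIF i hi)) (hH i (hIF i hi)) hsub ⟨x, hx, hxi⟩
      ⟨z, hz, (hsub hz).resolve_left hzG⟩
    exact disjoint_left.1 (hGH i (hIF i hi)) hw.1 hw.2
  have h4 := hGd i (hIF i hi) x (hTG hx)
  have h5 := hGd i (hIF i hi) y (hTG hy)
  have h6 := dist_triangle_left x y i
  linarith

theorem frag_preimage {R : X → X} (hR : Continuous R) (hc : Ctl R) {ε : ℝ} (hε : 0 < ε) :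
    ∃ η, 0 < η ∧ ∀ F : Set X, IsClosed F → Frag η F → Frag ε (R ⁻¹' F) := by
  obtain ⟨H, hH, hR'⟩ := hc
  obtain ⟨n, e, hn⟩ : ∃ (n : ℕ) (e : Fin n → X ≃ₜ X), ∀ x, ∃ i, R x = e i x := by
    obtain ⟨n, e, he⟩ := hH.fin_param
    refine ⟨n, e, fun x => ?_⟩
    obtain ⟨h, hh, hx⟩ := hR' x
    have : h ∈ range e := by
      rw [he.2]
      exact hh
    obtain ⟨i, rfl⟩ := this
    exact ⟨i, hx⟩
  obtain ⟨c, hc0, hcε⟩ : ∃ c : ℝ, 0 < c ∧ (n + 1) * c < ε := by
    refine ⟨ε / (n + 2), by positivity, ?_⟩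
    rw [mul_div_assoc', div_lt_iff₀ (by positivity)]
    nlinarith
  have hunif : ∀ i, ∃ η, 0 < η ∧ ∀ a b : X, dist a b < η → dist ((e i).symm a) ((e i).symm b) < c := by
    intro i
    have := CompactSpace.uniformContinuous_of_continuous (e i).symm.continuous
    obtain ⟨η, h1, h2⟩ := Metric.uniformContinuous_iff.1 this c hc0
    exact ⟨η, h1, fun a b h => h2 h⟩
  choose η hη0 hη using hunif
  obtain ⟨η₀, hη₀, hle⟩ : ∃ η₀, 0 < η₀ ∧ ∀ i, η₀ ≤ η i := by
    rcases isEmpty_or_nonempty (Fin n) with h | h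
    · exact ⟨1, one_pos, fun i => (h.false i).elim⟩
    · obtain ⟨i, hi⟩ := Finite.exists_min η
      exact ⟨η i, hη0 i, hi⟩
  refine ⟨η₀ / 2, by positivity, fun F hF hfr x hx => ?_⟩
  obtain ⟨E, h1, h2, h3, h4, h5⟩ := hfr (R x) hx
  have hsame : ∀ y y' : X, ∀ i, R y ∈ E → R y' ∈ E → R y = e i y → R y' = e i y' → dist y y' < c := by
    intro y y' i hy hy' hyi hyi'
    have h6 := hη i (R y) (R y') (by
      have h7 := h5 _ hy
      have h8 := h5 _ hy'
      have h9 := dist_triangle_left (R y) (R y') (R x)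
      have := hle i
      linarith)
    rw [hyi, hyi', Homeomorph.symm_apply_apply, Homeomorph.symm_apply_apply] at h6
    exact h6
  obtain ⟨l, hl⟩ : ∃ l : Fin (n + 1), ∀ y, R y ∈ E → dist x y ≠ ((l : ℕ) + 1) * c := by
    by_contra hcon
    push Not at hcon
    choose y hyE hyd using hcon
    choose i hi using fun l => hn (y l)
    obtain ⟨l, l', hll, hii⟩ := Fintype.exists_ne_map_eq_of_card_lt i (by simp)
    have h6 := hsame (y l) (y l') (i l) (hyE l) (hyE l') (hi l) (by rw [hii]; exact hi l')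
    have h7 : |dist x (y l) - dist x (y l')| ≤ dist (y l) (y l') := by
      rw [dist_comm x, dist_comm x]
      exact abs_dist_sub_le _ _ _
    rw [hyd, hyd] at h7
    have h8 : (1 : ℝ) ≤ |((l : ℕ) : ℝ) - ((l' : ℕ) : ℝ)| := by
      have h9 : ((l : ℕ) : ℤ) - ((l' : ℕ) : ℤ) ≠ 0 := by
        intro h
        apply hll
        apply Fin.ext
        omega
      have h10 := Int.one_le_abs h9
      exact_mod_cast h10
    have h9 : |(((l : ℕ) : ℝ) + 1) * c - (((l' : ℕ) : ℝ) + 1) * c| =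
        |((l : ℕ) : ℝ) - ((l' : ℕ) : ℝ)| * c := by
      rw [← sub_mul, add_sub_add_right_eq_sub, abs_mul, abs_of_pos hc0]
    rw [h9] at h7
    nlinarith
  set ρ : ℝ := ((l : ℕ) + 1) * c with hρ
  have hρε : ρ < ε := by
    have : ((l : ℕ) : ℝ) ≤ n := by
      have := l.2
      exact_mod_cast Nat.lt_succ_iff.1 this
    nlinarith
  have hρ0 : 0 < ρ := by positivity
  refine ⟨{y | R y ∈ E ∧ dist x y ≤ ρ}, fun y hy => h1 hy.1, ⟨h2, by rw [dist_self]; exact hρ0.le⟩,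
    (h3.preimage hR).inter (isClosed_le (continuous_const.dist continuous_id) continuous_const), ?_,
    fun y hy => lt_of_le_of_lt hy.2 hρε⟩
  have : R ⁻¹' F \ {y | R y ∈ E ∧ dist x y ≤ ρ} =
      R ⁻¹' (F \ E) ∪ (R ⁻¹' E ∩ {y | ρ ≤ dist x y}) := by
    ext y
    simp only [mem_sdiff, mem_preimage, mem_setOf_eq, mem_union, mem_inter_iff, not_and, not_le]
    constructor
    · rintro ⟨h6, h7⟩
      by_cases h : R y ∈ E
      · exact Or.inr ⟨h, (h7 h).le⟩
      · exact Or.inl ⟨h6, h⟩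
    · rintro (⟨h6, h7⟩ | ⟨h6, h7⟩)
      · exact ⟨h6, fun h => absurd h h7⟩
      · exact ⟨h1 h6, fun _ => lt_of_le_of_ne h7 (fun h => hl y h6 h.symm)⟩
  rw [this]
  exact (h4.preimage hR).union ((h3.preimage hR).inter
    (isClosed_le continuous_const (continuous_const.dist continuous_id)))

end Pool.Agent.Lib.MP_529e02_al
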