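import Pool.Agent.Lib.MP_529e02_al.Geo
import Pool.Agent.Lib.MP_529e02_al.Fold

/-!
MP_529e02_al. The Gromov boundary of a hyperbolic Coxeter group is a compact metrizable foldable space.
-/

namespace Pool.Agent.Lib.MP_529e02_al

open Set Filter Topology Uniformity UniformSpace CoxeterSystem

variable {B W : Type*} [Group W] {M : CoxeterMatrix B} (cs : CoxeterSystem M W) (h : IsHyp cs)

theorem hasBasis_entP : (𝓤 (Pts cs h)).HasBasis (fun _ : ℕ => True) (entP cs h) := by
  constructor
  intro s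
  constructor
  · intro hs
    obtain ⟨_, ⟨n, rfl⟩, hn⟩ := (FilterBasis.hasBasis _).mem_iff.1 hs
    exact ⟨n, trivial, hn⟩
  · rintro ⟨n, -, hn⟩
    exact (FilterBasis.hasBasis _).mem_iff.2 ⟨_, ⟨n, rfl⟩, hn⟩

theorem entP_mem (n : ℕ) : entP cs h n ∈ 𝓤 (Pts cs h) := (hasBasis_entP cs h).mem_of_mem trivial

instance : IsCountablyGenerated (𝓤 (Pts cs h)) := (hasBasis_entP cs h).isCountablyGenerated

theorem totallyBounded_pts [Finite B] : TotallyBounded (univ : Set (Pts cs h)) := by
  rw [(hasBasis_entP cs h).totallyBounded_iff]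
  intro n _
  refine ⟨{w : Pts cs h | cs.length w.tw ≤ n}, finite_ball cs n, ?_⟩
  intro g _
  obtain ⟨ω, h1, h2⟩ := cs.exists_isReduced g.tw
  rcases le_total (cs.length g.tw) n with hg | hg
  · exact mem_iUnion₂.2 ⟨g, hg, Or.inl rfl⟩
  · refine mem_iUnion₂.2 ⟨Pts.of cs h (cs.wordProd (ω.take n)), ?_, Or.inr ?_⟩
    · change cs.length (cs.wordProd (ω.take n)) ≤ n
      rw [(h1.take n).eq, List.length_take]
      omega
    · change (n : ℝ) ≤ gp cs g.tw (cs.wordProd (ω.take n))
      have hl : ω.length = cs.length g.tw := by rw [← h1.eq, ← h2]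
      have h3 : cs.length (cs.wordProd (ω.take n)) = n := by
        rw [(h1.take n).eq, List.length_take]
        omega
      have h4 : cs.length ((cs.wordProd (ω.take n))⁻¹ * g.tw) = ω.length - n := by
        have h5 : (cs.wordProd (ω.take n))⁻¹ * g.tw = cs.wordProd (ω.drop n) := by
          have h6 : g.tw = cs.wordProd (ω.take n) * cs.wordProd (ω.drop n) := by
            rw [← wordProd_append, List.take_append_drop, ← h2]
          rw [h6, inv_mul_cancel_left]
        rw [h5, (h1.drop n).eq, List.length_drop]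
      rw [gp_comm, gp, h3, h4, hl, Nat.cast_sub hg]
      linarith

instance compactSpace_completion [Finite B] : CompactSpace (Completion (Pts cs h)) := by
  constructor
  have h1 : TotallyBounded (range ((↑) : Pts cs h → Completion (Pts cs h))) := by
    rw [← image_univ]
    exact (totallyBounded_pts cs h).image (Completion.uniformContinuous_coe _)
  have h2 : closure (range ((↑) : Pts cs h → Completion (Pts cs h))) = univ :=
    Completion.denseRange_coe.closure_range
  rw [← h2]
  exact h1.closure.isCompact_of_isClosed isClosed_closure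

instance : TopologicalSpace.MetrizableSpace (Completion (Pts cs h)) := by
  let _ : PseudoMetricSpace (Pts cs h) := UniformSpace.pseudoMetricSpace (Pts cs h)
  exact inferInstance

/-- small sets of the group have small closures -/
theorem closure_small {E : Set (Completion (Pts cs h) × Completion (Pts cs h))}
    (hE : E ∈ 𝓤 (Completion (Pts cs h))) : ∃ n : ℕ, ∀ H : Set (Pts cs h),
      (∀ g ∈ H, ∀ k ∈ H, (g, k) ∈ entP cs h n) →
      ∀ x ∈ closure ((↑) '' H : Set (Completion (Pts cs h))),
      ∀ y ∈ closure ((↑) '' H : Set (Completion (Pts cs h))), (x, y) ∈ E := by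
  obtain ⟨E', ⟨hE1, hE2⟩, hE3⟩ := uniformity_hasBasis_closed.mem_iff.1 hE
  have h1 : (fun p : Pts cs h × Pts cs h => ((p.1 : Completion (Pts cs h)),
      (p.2 : Completion (Pts cs h)))) ⁻¹' E' ∈ 𝓤 (Pts cs h) := by
    rw [← Completion.comap_coe_eq_uniformity]
    exact preimage_mem_comap hE1
  obtain ⟨n, -, hn⟩ := (hasBasis_entP cs h).mem_iff.1 h1
  refine ⟨n, fun H hH x hx y hy => hE3 ?_⟩
  have h2 : (((↑) '' H : Set (Completion (Pts cs h))) ×ˢ
      ((↑) '' H : Set (Completion (Pts cs h)))) ⊆ E' := by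
    rintro ⟨a, b⟩ ⟨⟨g, hg, hga⟩, ⟨k, hk, hkb⟩⟩
    have h3 := hn (hH g hg k hk)
    simp only at hga hkb
    rw [← hga, ← hkb]
    exact h3
  have h3 := closure_minimal h2 hE2
  rw [closure_prod_eq] at h3
  exact h3 ⟨hx, hy⟩

/-- near a point at infinity the Gromov products are large -/
theorem exists_large {m : Completion (Pts cs h)}
    (hm : m ∉ range ((↑) : Pts cs h → Completion (Pts cs h))) (n : ℕ) :
    ∃ O : Set (Completion (Pts cs h)), IsOpen O ∧ m ∈ O ∧
      ∀ g k : Pts cs h, (g : Completion (Pts cs h)) ∈ O → (k : Completion (Pts cs h)) ∈ O →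
        (n : ℝ) ≤ gp cs g.tw k.tw := by
  have h1 : entP cs h n ∈ comap (fun p : Pts cs h × Pts cs h => ((p.1 : Completion (Pts cs h)),
      (p.2 : Completion (Pts cs h)))) (𝓤 (Completion (Pts cs h))) := by
    rw [Completion.comap_coe_eq_uniformity]
    exact entP_mem cs h n
  obtain ⟨E, hE, hEn⟩ := mem_comap.1 h1
  obtain ⟨E', hE', hsymm, hcomp⟩ := comp_symm_mem_uniformity_sets hE
  have h2 : {y | (m, y) ∈ E'} ∈ 𝓝 m := mem_nhds_left m hE'
  obtain ⟨O, hO1, hO2, hO3⟩ := _root_.mem_nhds_iff.1 h2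
  have h3 : ∀ g k : Pts cs h, (g : Completion (Pts cs h)) ∈ O → (k : Completion (Pts cs h)) ∈ O →
      (g, k) ∈ entP cs h n := by
    intro g k hg hk
    apply hEn
    apply hcomp
    exact ⟨m, SetRel.symm _ (hO1 hg), hO1 hk⟩
  refine ⟨O, hO2, hO3, fun g k hg hk => ?_⟩
  rcases h3 g k hg hk with h4 | h4
  · have h5 : IsOpen (O ∩ {(g : Completion (Pts cs h))}ᶜ) := hO2.inter isOpen_compl_singleton
    have h6 : m ∈ O ∩ {(g : Completion (Pts cs h))}ᶜ := ⟨hO3, fun h7 => hm ⟨g, h7.symm⟩⟩
    obtain ⟨l, hl⟩ := Completion.denseRange_coe.exists_mem_open h5 ⟨m, h6⟩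
    rcases h3 g l hg hl.1 with h7 | h7
    · exact absurd (congrArg ((↑) : Pts cs h → Completion (Pts cs h)) h7).symm hl.2
    · have h8 : g = k := h4
      rw [← h8, gp_self]
      exact le_trans h7 (gp_le_left cs _ _)
  · exact h4

/-- left multiplication -/
private theorem gp_mul (t x y : W) : gp cs x y - cs.length t ≤ gp cs (t * x) (t * y) := by
  have h1 : (t * x)⁻¹ * (t * y) = x⁻¹ * y := by group
  have h2 := cs.length_mul_le t⁻¹ (t * x)
  have h3 := cs.length_mul_le t⁻¹ (t * y)
  rw [inv_mul_cancel_left, cs.length_inv] at h2 h3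
  have h2' : (cs.length x : ℝ) ≤ cs.length t + cs.length (t * x) := by exact_mod_cast h2
  have h3' : (cs.length y : ℝ) ≤ cs.length t + cs.length (t * y) := by exact_mod_cast h3
  rw [gp, gp, h1]
  linarith

private theorem uc_mul (t : W) :
    UniformContinuous (fun x : Pts cs h => (Pts.of cs h (t * x.tw))) := by
  rw [(hasBasis_entP cs h).uniformContinuous_iff (hasBasis_entP cs h)]
  intro n _
  refine ⟨n + cs.length t, trivial, fun x y hxy => ?_⟩
  rcases hxy with h1 | h1
  · left
    have h2 : x = y := h1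
    rw [h2]
  · right
    have h2 := gp_mul cs t x.tw y.tw
    push_cast at h1
    change (n : ℝ) ≤ gp cs (t * x.tw) (t * y.tw)
    change (n : ℝ) + (cs.length t : ℝ) ≤ gp cs x.tw y.tw at h1
    linarith

/-- left multiplication as a uniform equivalence -/
private noncomputable def lm (t : W) : Pts cs h ≃ᵤ Pts cs h where
  toFun x := (Pts.of cs h (t * x.tw))
  invFun x := (Pts.of cs h (t⁻¹ * x.tw))
  left_inv x := inv_mul_cancel_left t x.tw
  right_inv x := mul_inv_cancel_left t x.tw
  uniformContinuous_toFun := uc_mul cs h t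
  uniformContinuous_invFun := uc_mul cs h t⁻¹

/-- the action on the compactification -/
private noncomputable def act (t : W) : Completion (Pts cs h) ≃ᵤ Completion (Pts cs h) :=
  Completion.mapEquiv (lm cs h t)

private theorem act_coe (t : W) (g : Pts cs h) :
    act cs h t (g : Completion (Pts cs h)) = ((Pts.of cs h (t * g.tw) : Pts cs h) : Completion (Pts cs h)) :=
  Completion.mapEquiv_coe _ g

private theorem act_act {t : W} (ht : t * t = 1) (x : Completion (Pts cs h)) :
    act cs h t (act cs h t x) = x := by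
  refine Completion.induction_on (p := fun x => act cs h t (act cs h t x) = x) x
    (isClosed_eq ((act cs h t).continuous.comp (act cs h t).continuous) continuous_id) fun a => ?_
  rw [act_coe, act_coe]
  have h1 : t * (t * a.tw) = a.tw := by rw [← mul_assoc, ht, one_mul]
  change ((Pts.of cs h (t * (t * a.tw)) : Pts cs h) : Completion (Pts cs h)) = a
  rw [h1]
  rfl

private theorem act_bdry {t : W} (ht : t * t = 1) {x : Completion (Pts cs h)}
    (hx : x ∉ range ((↑) : Pts cs h → Completion (Pts cs h))) :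
    act cs h t x ∉ range ((↑) : Pts cs h → Completion (Pts cs h)) := by
  rintro ⟨g, hg⟩
  apply hx
  refine ⟨(Pts.of cs h (t * g.tw)), ?_⟩
  rw [← act_coe, hg, act_act cs h ht]

/-- the closed half-spaces in the compactification -/
private def hs (t : W) (a : ZMod 2) : Set (Completion (Pts cs h)) :=
  closure ((↑) '' {g : Pts cs h | side cs g.tw t = a})

private theorem hs_cover (t : W) (x : Completion (Pts cs h)) : x ∈ hs cs h t 0 ∨ x ∈ hs cs h t 1 := by
  have h1 : closure (range ((↑) : Pts cs h → Completion (Pts cs h))) = univ :=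
    Completion.denseRange_coe.closure_range
  have h2 : range ((↑) : Pts cs h → Completion (Pts cs h)) ⊆
      ((↑) '' {g : Pts cs h | side cs g.tw t = 0}) ∪
      ((↑) '' {g : Pts cs h | side cs g.tw t = 1}) := by
    rintro _ ⟨g, rfl⟩
    have : ∀ a : ZMod 2, a = 0 ∨ a = 1 := by decide
    rcases this (side cs g.tw t) with h3 | h3
    · exact Or.inl ⟨g, h3, rfl⟩
    · exact Or.inr ⟨g, h3, rfl⟩
  have h3 := closure_mono h2
  rw [h1, closure_union] at h3
  exact h3 (mem_univ x)

private theorem act_hs {t : W} (ht : cs.IsReflection t) {a : ZMod 2} {x : Completion (Pts cs h)}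
    (hx : x ∈ hs cs h t a) : act cs h t x ∈ hs cs h t (a + 1) := by
  have h1 := image_closure_subset_closure_image (act cs h t).continuous (mem_image_of_mem _ hx)
  refine closure_mono ?_ h1
  rintro _ ⟨_, ⟨g, hg, rfl⟩, rfl⟩
  rw [act_coe]
  refine ⟨(Pts.of cs h (t * g.tw)), ?_, rfl⟩
  change side cs (t * g.tw) t = a + 1
  rw [side_refl_mul cs ht]
  have hg' : side cs g.tw t = a := hg
  rw [hg']

/-- the reflection fixes the boundary points of its wall -/
private theorem act_fix {t : W} {x : Completion (Pts cs h)}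
    (hx : x ∉ range ((↑) : Pts cs h → Completion (Pts cs h))) (h0 : x ∈ hs cs h t 0)
    (h1 : x ∈ hs cs h t 1) : act cs h t x = x := by
  have hyp := h
  obtain ⟨δ, hδ⟩ := hyp
  obtain ⟨D, hD⟩ := exists_nat_ge δ
  by_contra hne
  -- an entourage separating the two points
  have hne' : ∃ E ∈ 𝓤 (Completion (Pts cs h)), (x, act cs h t x) ∉ E := by
    by_contra hcon
    push Not at hcon
    exact hne (eq_of_uniformity (fun {V} hV => hcon V hV)).symm
  obtain ⟨E, hE, hxE⟩ := hne'
  obtain ⟨E1, hE1, hE1s, hE1c⟩ := comp_comp_symm_mem_uniformity_sets hE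
  have huc := (act cs h t).uniformContinuous
  have hE2 : {p : Completion (Pts cs h) × Completion (Pts cs h) |
      (act cs h t p.1, act cs h t p.2) ∈ E1} ∈ 𝓤 (Completion (Pts cs h)) := huc hE1
  obtain ⟨n, hn⟩ := closure_small cs h (inter_mem hE1 hE2)
  obtain ⟨O, hO, hxO, hOl⟩ := exists_large cs h hx (n + 2 * D + 1)
  obtain ⟨_, hg1, ⟨g, hg, rfl⟩⟩ := mem_closure_iff.1 h0 O hO hxO
  obtain ⟨_, hk1, ⟨k, hk, rfl⟩⟩ := mem_closure_iff.1 h1 O hO hxO
  have hg' : side cs g.tw t = 0 := hg
  have hk' : side cs k.tw t = 1 := hk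
  obtain ⟨v, i, hv1, hv2⟩ := exists_crossing cs (g := g.tw) (h := k.tw) (t := t) (by
    rw [hg', hk']
    decide)
  have h2 := geodesic_gp cs hδ hv2
  have h3 := hOl g k hg1 hk1
  push_cast at h3
  have hD0 : (0 : ℝ) ≤ D := Nat.cast_nonneg D
  -- the wall point is close to `x`
  let v' : Pts cs h := Pts.of cs h v
  let S : Set (Pts cs h) := {l | (l : Completion (Pts cs h)) ∈ O}
  have hxS : x ∈ closure ((↑) '' S : Set (Completion (Pts cs h))) := by
    rw [mem_closure_iff]
    intro O' hO' hxO'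
    obtain ⟨l, hl⟩ := Completion.denseRange_coe.exists_mem_open (hO.inter hO') ⟨x, hxO, hxO'⟩
    exact ⟨l, hl.2, l, hl.1, rfl⟩
  have h4 : ∀ l ∈ S, (n : ℝ) ≤ gp cs v l.tw := by
    intro l hl
    have h5 := hδ v g.tw l.tw
    have h6 := hOl g l hg1 hl
    push_cast at h6
    have h7 : (n : ℝ) + D + 1 ≤ min (gp cs v g.tw) (gp cs g.tw l.tw) :=
      le_min (by linarith [h2.2.1]) (by linarith)
    linarith
  have h5 : ∀ a ∈ S ∪ {v'}, ∀ b ∈ S ∪ {v'}, (a, b) ∈ entP cs h n := by
    rintro a (ha | ha) b (hb | hb)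
    · right
      have := hOl a b ha hb
      push_cast at this
      change (n : ℝ) ≤ gp cs a.tw b.tw
      linarith
    · right
      rw [mem_singleton_iff] at hb
      change (n : ℝ) ≤ gp cs a.tw b.tw
      rw [gp_comm, hb]
      exact h4 a ha
    · right
      rw [mem_singleton_iff] at ha
      change (n : ℝ) ≤ gp cs a.tw b.tw
      rw [ha]
      exact h4 b hb
    · left
      rw [mem_singleton_iff] at ha hb
      rw [ha, hb]
  have h6 := hn _ h5 x (closure_mono (image_mono subset_union_left) hxS) (v' : Completion (Pts cs h))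
    (subset_closure ⟨v', Or.inr rfl, rfl⟩)
  -- the wall point is moved by one step only
  have h7 : ∀ a ∈ ({v', Pts.of cs h (t * v)} : Set (Pts cs h)),
      ∀ b ∈ ({v', Pts.of cs h (t * v)} : Set (Pts cs h)), (a, b) ∈ entP cs h n := by
    have h8 : (n : ℝ) ≤ gp cs v (t * v) := by
      have h9 : v⁻¹ * (t * v) = cs.simple i := by rw [hv1, inv_mul_cancel_left]
      have h10 := cs.length_mul_le (v * cs.simple i) (cs.simple i)
      rw [mul_assoc, simple_mul_simple_self, mul_one, cs.length_simple, ← hv1] at h10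
      have h11 : (cs.length v : ℝ) ≤ cs.length (t * v) + 1 := by exact_mod_cast h10
      rw [gp, h9, cs.length_simple]
      push_cast
      linarith [h2.1]
    rintro a (ha | ha) b (hb | hb)
    · left
      rw [ha, hb]
    · right
      change (n : ℝ) ≤ gp cs a.tw b.tw
      rw [mem_singleton_iff] at hb
      rw [ha, hb]
      exact h8
    · right
      change (n : ℝ) ≤ gp cs a.tw b.tw
      rw [mem_singleton_iff] at ha
      rw [ha, hb, gp_comm]
      exact h8
    · left
      rw [mem_singleton_iff] at ha hb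
      rw [ha, hb]
  have h8 := hn _ h7 (v' : Completion (Pts cs h)) (subset_closure ⟨v', Or.inl rfl, rfl⟩)
    ((Pts.of cs h (t * v) : Pts cs h) : Completion (Pts cs h)) (subset_closure ⟨_, Or.inr rfl, rfl⟩)
  apply hxE
  apply hE1c
  have h9 := h6.2
  simp only [mem_ofPred_eq] at h9
  rw [act_coe] at h9
  exact ⟨((Pts.of cs h (t * v) : Pts cs h) : Completion (Pts cs h)), ⟨_, h6.1, h8.1⟩,
    SetRel.symm _ h9⟩

theorem isOpen_range_coe : IsOpen (range ((↑) : Pts cs h → Completion (Pts cs h))) := by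
  rw [isOpen_iff_mem_nhds]
  rintro _ ⟨g, rfl⟩
  have h1 : entP cs h (cs.length g.tw + 1) ∈ comap (fun p : Pts cs h × Pts cs h =>
      ((p.1 : Completion (Pts cs h)), (p.2 : Completion (Pts cs h)))) (𝓤 (Completion (Pts cs h))) := by
    rw [Completion.comap_coe_eq_uniformity]
    exact entP_mem cs h _
  obtain ⟨E, hE, hEn⟩ := mem_comap.1 h1
  obtain ⟨O, hO1, hO2, hO3⟩ := _root_.mem_nhds_iff.1 (mem_nhds_left (g : Completion (Pts cs h)) hE)
  refine _root_.mem_nhds_iff.2 ⟨O, ?_, hO2, hO3⟩
  intro x hx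
  by_contra hxr
  have h2 : IsOpen (O ∩ {(g : Completion (Pts cs h))}ᶜ) := hO2.inter isOpen_compl_singleton
  obtain ⟨l, hl⟩ := Completion.denseRange_coe.exists_mem_open h2
    ⟨x, hx, fun h7 => hxr ⟨g, (mem_singleton_iff.1 h7).symm⟩⟩
  have h5 : (g, l) ∈ entP cs h (cs.length g.tw + 1) := hEn (hO1 hl.1)
  rcases h5 with h3 | h3
  · exact hl.2 (congrArg ((↑) : Pts cs h → Completion (Pts cs h)) h3).symm
  · have h4 := le_trans h3 (gp_le_left cs g.tw l.tw)
    push_cast at h4
    linarith

instance compactSpace_bdry [Finite B] : CompactSpace (Bdry cs h) := by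
  have h1 : IsClosed {x : Completion (Pts cs h) |
      x ∉ range ((↑) : Pts cs h → Completion (Pts cs h))} := (isOpen_range_coe cs h).isClosed_compl
  exact isCompact_iff_compactSpace.1 h1.isCompact

instance metrizableSpace_bdry : TopologicalSpace.MetrizableSpace (Bdry cs h) :=
  (IsEmbedding.subtypeVal (p := fun x : Completion (Pts cs h) =>
    x ∉ range ((↑) : Pts cs h → Completion (Pts cs h)))).metrizableSpace

/-- the action of a reflection on the boundary -/
private noncomputable def actB {t : W} (ht : t * t = 1) : Bdry cs h ≃ₜ Bdry cs h where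
  toFun x := ⟨act cs h t x.1, act_bdry cs h ht x.2⟩
  invFun x := ⟨act cs h t x.1, act_bdry cs h ht x.2⟩
  left_inv x := Subtype.ext (act_act cs h ht x.1)
  right_inv x := Subtype.ext (act_act cs h ht x.1)
  continuous_toFun := ((act cs h t).continuous.comp continuous_subtype_val).subtype_mk _
  continuous_invFun := ((act cs h t).continuous.comp continuous_subtype_val).subtype_mk _

/-- **Theorem.** The Gromov boundary of a hyperbolic Coxeter group is foldable. -/
theorem foldable_bdry [Finite B] : Foldable (Bdry cs h) := by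
  classical
  intro m N hN hmN
  obtain ⟨O, hO, rfl⟩ := isOpen_induced_iff.1 hN
  have hmO : m.1 ∈ O := hmN
  obtain ⟨E, hE, hEO⟩ := UniformSpace.mem_nhds_iff.1 (hO.mem_nhds hmO)
  obtain ⟨n, hn⟩ := closure_small cs h hE
  obtain ⟨J, hJ⟩ := exists_small_side cs h n
  obtain ⟨O1, hO1, hmO1, hOl⟩ := exists_large cs h m.2 J
  obtain ⟨l, hl⟩ := Completion.denseRange_coe.exists_mem_open hO1 ⟨m.1, hmO1⟩
  obtain ⟨t, ht, ht1, ht2⟩ := hJ {w : W | ((Pts.of cs h w : Pts cs h) : Completion (Pts cs h)) ∈ O1}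
    ⟨l.tw, hl⟩ (fun g hg k hk => hOl (Pts.of cs h g) (Pts.of cs h k) hg hk)
  have htt : t * t = 1 := ht.mul_self
  -- `m` is not on the near side
  have hm0 : m.1 ∉ hs cs h t 0 := by
    intro hm
    obtain ⟨_, hg1, ⟨g, hg, rfl⟩⟩ := mem_closure_iff.1 hm O1 hO1 hmO1
    have h1 : side cs g.tw t = 1 := ht1 g.tw hg1
    have h2 : side cs g.tw t = 0 := hg
    rw [h1] at h2
    exact absurd h2 (by decide)
  have hm1 : m.1 ∈ hs cs h t 1 := (hs_cover cs h t m.1).resolve_left hm0
  -- the far side is small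
  have hsm : ∀ y : Completion (Pts cs h), y ∈ hs cs h t 1 → y ∈ O := by
    intro y hy
    apply hEO
    exact hn _ (fun g hg k hk => Or.inr (ht2 g.tw k.tw hg hk)) m.1 hm1 y hy
  have hcl : ∀ a, IsClosed {x : Bdry cs h | x.1 ∈ hs cs h t a} := fun a =>
    isClosed_closure.preimage continuous_subtype_val
  set T := actB cs h htt with hT
  have hTv : ∀ x : Bdry cs h, (T x).1 = act cs h t x.1 := fun x => rfl
  have hT0 : ∀ x : Bdry cs h, x.1 ∈ hs cs h t 1 → (T x).1 ∈ hs cs h t 0 := by
    intro x hx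
    have := act_hs cs h ht hx
    rw [show (1 : ZMod 2) + 1 = 0 by decide] at this
    exact this
  have hT1 : ∀ x : Bdry cs h, x.1 ∈ hs cs h t 0 → (T x).1 ∈ hs cs h t 1 := by
    intro x hx
    have := act_hs cs h ht hx
    rw [zero_add] at this
    exact this
  have hTf : ∀ x : Bdry cs h, x.1 ∈ hs cs h t 0 → x.1 ∈ hs cs h t 1 → T x = x := fun x h0 h1 =>
    Subtype.ext (act_fix cs h x.2 h0 h1)
  set r : Bdry cs h → Bdry cs h := fun x => if x.1 ∈ hs cs h t 0 then x else T x with hr
  have hr0 : ∀ x : Bdry cs h, x.1 ∈ hs cs h t 0 → r x = x := fun x hx => if_pos hx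
  have hr1 : ∀ x : Bdry cs h, x.1 ∈ hs cs h t 1 → r x = T x := by
    intro x hx
    by_cases h0 : x.1 ∈ hs cs h t 0
    · rw [hr0 x h0, hTf x h0 hx]
    · exact if_neg h0
  refine ⟨r, T, {x | x.1 ∉ hs cs h t 0}, ?_, ?_, ?_, ?_, hm0, ?_, ?_⟩
  · rw [continuous_iff_isClosed]
    intro C hC
    have : r ⁻¹' C = ({x | x.1 ∈ hs cs h t 0} ∩ C) ∪ ({x | x.1 ∈ hs cs h t 1} ∩ T ⁻¹' C) := by
      ext x
      constructor
      · intro hx
        by_cases h0 : x.1 ∈ hs cs h t 0
        · left
          refine ⟨h0, ?_⟩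
          rw [mem_preimage, hr0 x h0] at hx
          exact hx
        · right
          have h1 := (hs_cover cs h t x.1).resolve_left h0
          refine ⟨h1, ?_⟩
          rw [mem_preimage, hr1 x h1] at hx
          exact hx
      · rintro (⟨h0, hx⟩ | ⟨h1, hx⟩)
        · rw [mem_preimage, hr0 x h0]
          exact hx
        · rw [mem_preimage, hr1 x h1]
          exact hx
    rw [this]
    exact ((hcl 0).inter hC).union ((hcl 1).inter (hC.preimage T.continuous))
  · intro x hx
    apply hr0
    rcases hs_cover cs h t x.1 with h1 | h1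
    · exact h1
    · exact absurd (hsm x.1 h1) hx
  · intro x
    rcases hs_cover cs h t x.1 with h1 | h1
    · exact Or.inl (hr0 x h1)
    · exact Or.inr (hr1 x h1)
  · exact (hcl 0).isOpen_compl
  · intro x hx
    apply hx
    rcases hs_cover cs h t x.1 with h1 | h1
    · rw [hr0 x h1]
      exact h1
    · rw [hr1 x h1]
      exact hT0 x h1
  · intro x
    rcases hs_cover cs h t x.1 with h1 | h1
    · exact Or.inr (hsm _ (hT1 x h1))
    · exact Or.inl (hsm _ h1)

end Pool.Agent.Lib.MP_529e02_al
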