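import Mathlib

/-!
MP_529e02_al. The two sides of a reflection in a Coxeter group: the parity cocycle, crossings of a wall by a
path, convexity of the sides.
-/

namespace Pool.Agent.Lib.MP_529e02_al

open List CoxeterSystem Classical

variable {B W : Type*} [Group W] {M : CoxeterMatrix B} (cs : CoxeterSystem M W)

/-- the involution attached to a generator -/
private noncomputable def fp (i : B) : Equiv.Perm (W × ZMod 2) where
  toFun p := (cs.simple i * p.1 * cs.simple i, p.2 + if p.1 = cs.simple i then 1 else 0)
  invFun p := (cs.simple i * p.1 * cs.simple i, p.2 + if p.1 = cs.simple i then 1 else 0)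
  left_inv := by
    rintro ⟨t, e⟩
    have h1 : cs.simple i * t * cs.simple i = cs.simple i ↔ t = cs.simple i := by
      constructor
      · intro h
        have h2 : cs.simple i * (cs.simple i * t * cs.simple i) * cs.simple i =
            cs.simple i * cs.simple i * cs.simple i := by rw [h]
        simpa [mul_assoc] using h2
      · rintro rfl
        simp
    ext
    · simp [mul_assoc]
    · simp only [h1]
      split_ifs
      · rw [add_assoc, CharTwo.add_self_eq_zero, add_zero]
      · simp
  right_inv := by
    rintro ⟨t, e⟩
    have h1 : cs.simple i * t * cs.simple i = cs.simple i ↔ t = cs.simple i := by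
      constructor
      · intro h
        have h2 : cs.simple i * (cs.simple i * t * cs.simple i) * cs.simple i =
            cs.simple i * cs.simple i * cs.simple i := by rw [h]
        simpa [mul_assoc] using h2
      · rintro rfl
        simp
    ext
    · simp [mul_assoc]
    · simp only [h1]
      split_ifs
      · rw [add_assoc, CharTwo.add_self_eq_zero, add_zero]
      · simp

private theorem fp_apply (i : B) (t : W) (e : ZMod 2) :
    fp cs i (t, e) = (cs.simple i * t * cs.simple i, e + if t = cs.simple i then 1 else 0) := rfl

private theorem fp_pow (i j : B) (k : ℕ) (t : W) (e : ZMod 2) :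
    ((fp cs i * fp cs j) ^ k) (t, e) =
      ((cs.simple i * cs.simple j) ^ k * t * ((cs.simple i * cs.simple j) ^ k)⁻¹,
        e + ∑ n ∈ Finset.range (2 * k), if t = cs.simple j * (cs.simple i * cs.simple j) ^ n then 1
          else 0) := by
  set x : W := cs.simple i * cs.simple j with hx
  have hxi : x⁻¹ = cs.simple j * cs.simple i := by
    rw [hx, mul_inv_rev, inv_simple, inv_simple]
  have hjx : ∀ l : ℕ, x ^ l * cs.simple j * x ^ l = cs.simple j := by
    intro l
    induction l with
    | zero => simp
    | succ l ih =>
      have h1 : x * cs.simple j * x = cs.simple j := by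
        rw [hx]
        simp [mul_assoc]
      calc x ^ (l + 1) * cs.simple j * x ^ (l + 1)
          = (x ^ l * x) * cs.simple j * (x * x ^ l) := by rw [← pow_succ, ← pow_succ']
        _ = x ^ l * (x * cs.simple j * x) * x ^ l := by simp only [mul_assoc]
        _ = cs.simple j := by rw [h1, ih]
  induction k with
  | zero => simp
  | succ k ih =>
    rw [pow_succ', Equiv.Perm.mul_apply, ih, Equiv.Perm.mul_apply, fp_apply, fp_apply]
    have h1 : (x ^ k * t * (x ^ k)⁻¹ = cs.simple j) ↔ t = cs.simple j * x ^ (2 * k) := by
      constructor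
      · intro h
        have h2 : t = (x ^ k)⁻¹ * cs.simple j * x ^ k := by
          rw [← h]
          group
        have h3 := hjx k
        rw [h2, two_mul, pow_add]
        have h4 : (x ^ k)⁻¹ * cs.simple j = cs.simple j * x ^ k := by
          rw [inv_mul_eq_iff_eq_mul, ← mul_assoc, h3]
        rw [h4, mul_assoc]
      · rintro rfl
        have h3 := hjx k
        rw [two_mul, pow_add]
        calc x ^ k * (cs.simple j * (x ^ k * x ^ k)) * (x ^ k)⁻¹
            = (x ^ k * cs.simple j * x ^ k) * (x ^ k * (x ^ k)⁻¹) := by simp only [mul_assoc]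
          _ = cs.simple j := by rw [h3, mul_inv_cancel, mul_one]
    have h2 : (cs.simple j * (x ^ k * t * (x ^ k)⁻¹) * cs.simple j = cs.simple i) ↔
        t = cs.simple j * x ^ (2 * k + 1) := by
      have h5 : cs.simple j * cs.simple i * cs.simple j = cs.simple j * x := by
        rw [hx, mul_assoc]
      constructor
      · intro h
        have h6 : x ^ k * t * (x ^ k)⁻¹ = cs.simple j * x := by
          rw [← h5, ← h]
          simp [mul_assoc]
        have h7 : t = (x ^ k)⁻¹ * cs.simple j * x * x ^ k := by
          have : t = (x ^ k)⁻¹ * (x ^ k * t * (x ^ k)⁻¹) * x ^ k := by group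
          rw [this, h6]
          simp only [mul_assoc]
        have h3 := hjx k
        have h4 : (x ^ k)⁻¹ * cs.simple j = cs.simple j * x ^ k := by
          rw [inv_mul_eq_iff_eq_mul, ← mul_assoc, h3]
        rw [h7, h4, pow_succ, two_mul, pow_add]
        simp only [mul_assoc]
        rw [← pow_succ', ← pow_succ]
      · rintro rfl
        have h3 := hjx k
        have h6 : x ^ k * (cs.simple j * x ^ (2 * k + 1)) * (x ^ k)⁻¹ = cs.simple j * x := by
          have h7 : x ^ (2 * k + 1) = x ^ k * (x * x ^ k) := by
            rw [← pow_succ', ← pow_add]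
            congr 1
            ring
          rw [h7]
          calc x ^ k * (cs.simple j * (x ^ k * (x * x ^ k))) * (x ^ k)⁻¹
              = (x ^ k * cs.simple j * x ^ k) * x * (x ^ k * (x ^ k)⁻¹) := by simp only [mul_assoc]
            _ = cs.simple j * x := by rw [h3, mul_inv_cancel, mul_one]
        rw [h6, ← h5]
        simp [mul_assoc]
    ext
    · simp only
      rw [pow_succ' x k, mul_inv_rev, hxi]
      simp only [hx, mul_assoc]
    · simp only [h1, h2]
      rw [show 2 * (k + 1) = 2 * k + 1 + 1 by ring, Finset.sum_range_succ, Finset.sum_range_succ]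
      ring

private theorem fp_liftable : M.IsLiftable (fp cs) := by
  intro i j
  ext1 ⟨t, e⟩
  rw [fp_pow]
  have h1 : (cs.simple i * cs.simple j) ^ M i j = 1 := cs.simple_mul_simple_pow i j
  rw [h1]
  have h2 : ∑ n ∈ Finset.range (2 * M i j),
      (if t = cs.simple j * (cs.simple i * cs.simple j) ^ n then (1 : ZMod 2) else 0) = 0 := by
    rw [two_mul, Finset.sum_range_add]
    have h3 : ∀ n, (cs.simple i * cs.simple j) ^ (M i j + n) = (cs.simple i * cs.simple j) ^ n := by
      intro n
      rw [pow_add, h1, one_mul]
    simp only [h3]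
    exact CharTwo.add_self_eq_zero _
  rw [h2]
  simp

/-- the parity representation -/
private noncomputable def par : W →* Equiv.Perm (W × ZMod 2) := cs.lift ⟨fp cs, fp_liftable cs⟩

private theorem par_simple (i : B) : par cs (cs.simple i) = fp cs i :=
  cs.lift_apply_simple (fp_liftable cs) i

private theorem par_word (ω : List B) (t : W) (e : ZMod 2) :
    par cs (cs.wordProd ω) (t, e) =
      (cs.wordProd ω * t * (cs.wordProd ω)⁻¹, e + (List.count t (cs.rightInvSeq ω) : ZMod 2)) := by
  induction ω with
  | nil => simp
  | cons i ω ih =>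
    rw [wordProd_cons, map_mul, Equiv.Perm.mul_apply, ih, par_simple, fp_apply, rightInvSeq,
      List.count_cons]
    have h1 : (cs.wordProd ω * t * (cs.wordProd ω)⁻¹ = cs.simple i) ↔
        ((cs.wordProd ω)⁻¹ * cs.simple i * cs.wordProd ω == t) = true := by
      rw [beq_iff_eq]
      constructor
      · intro h
        rw [← h]
        group
      · intro h
        rw [← h]
        group
    ext
    · simp [mul_assoc]
    · simp only [h1]
      push_cast
      split_ifs <;> ring

/-- the side of the wall of `t` on which `w` lies: `0` for the side of `1`, `1` for the other side -/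
noncomputable def side (w t : W) : ZMod 2 := (par cs w⁻¹ (t, 0)).2

private theorem par_apply (w t : W) (e : ZMod 2) :
    par cs w (t, e) = (w * t * w⁻¹, e + side cs w⁻¹ t) := by
  obtain ⟨ω, rfl⟩ := cs.wordProd_surjective w
  rw [side, inv_inv, par_word, par_word, zero_add]

theorem side_one (t : W) : side cs 1 t = 0 := by
  rw [side, inv_one, map_one]
  rfl

/-- the side of a product -/
theorem side_mul (g w t : W) : side cs (g * w) t = side cs g t + side cs w (g⁻¹ * t * g) := by
  rw [side, mul_inv_rev, map_mul, Equiv.Perm.mul_apply, par_apply, par_apply, inv_inv, inv_inv,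
    zero_add]

theorem side_simple (i : B) (t : W) : side cs (cs.simple i) t = if t = cs.simple i then 1 else 0 := by
  rw [side, inv_simple, par_simple, fp_apply, zero_add]

/-- the side of a word -/
theorem side_word (ω : List B) (t : W) :
    side cs (cs.wordProd ω) t = (List.count t (cs.leftInvSeq ω) : ZMod 2) := by
  rw [side, ← wordProd_reverse, par_word, rightInvSeq_reverse, List.count_reverse, zero_add]

/-- a step crosses the wall of `t` exactly if it is the step from `v` to `t v` -/
theorem side_mul_simple (v t : W) (i : B) :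
    side cs (v * cs.simple i) t = side cs v t + if t * v = v * cs.simple i then 1 else 0 := by
  rw [side_mul, side_simple]
  have : (v⁻¹ * t * v = cs.simple i) ↔ (t * v = v * cs.simple i) := by
    rw [mul_assoc, inv_mul_eq_iff_eq_mul]
  simp only [this]

theorem side_self {t : W} (ht : cs.IsReflection t) : side cs t t = 1 := by
  obtain ⟨u, i, rfl⟩ := ht
  have h0 : side cs (u * u⁻¹) (u * cs.simple i * u⁻¹) = 0 := by
    rw [mul_inv_cancel, side_one]
  rw [side_mul] at h0
  rw [mul_assoc u, side_mul, side_mul, side_simple]
  have h1 : u⁻¹ * (u * (cs.simple i * u⁻¹)) * u = cs.simple i := by group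
  have h2 : u⁻¹ * (u * cs.simple i * u⁻¹) * u = cs.simple i := by group
  rw [h1, if_pos rfl]
  rw [h2] at h0
  have h3 : (cs.simple i)⁻¹ * cs.simple i * cs.simple i = cs.simple i := by
    rw [inv_mul_cancel, one_mul]
  rw [h3, mul_assoc] at *
  linear_combination h0

/-- the reflection exchanges the sides -/
theorem side_refl_mul {t : W} (ht : cs.IsReflection t) (w : W) :
    side cs (t * w) t = side cs w t + 1 := by
  rw [side_mul, side_self cs ht, inv_mul_cancel, one_mul, add_comm]

/-- a geodesic which starts and ends on the same side of a wall stays on this side -/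
theorem side_convex {g v h t : W} (hv : cs.length (g⁻¹ * v) + cs.length (v⁻¹ * h) =
    cs.length (g⁻¹ * h)) (hs : side cs g t = side cs h t) : side cs v t = side cs g t := by
  obtain ⟨ω₁, h1, h1'⟩ := cs.exists_isReduced (g⁻¹ * v)
  obtain ⟨ω₂, h2, h2'⟩ := cs.exists_isReduced (v⁻¹ * h)
  have h3 : g⁻¹ * h = cs.wordProd (ω₁ ++ ω₂) := by
    rw [wordProd_append, ← h1', ← h2']
    group
  have h4 : cs.IsReduced (ω₁ ++ ω₂) := by
    change cs.length _ = _
    rw [← h3, ← hv, h1', h2', List.length_append, h1.eq, h2.eq]
  have h5 : side cs h t = side cs g t + side cs (g⁻¹ * h) (g⁻¹ * t * g) := by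
    rw [← side_mul, mul_inv_cancel_left]
  have h6 : side cs v t = side cs g t + side cs (g⁻¹ * v) (g⁻¹ * t * g) := by
    rw [← side_mul, mul_inv_cancel_left]
  rw [← hs, h3, side_word] at h5
  have h7 : (List.count (g⁻¹ * t * g) (cs.leftInvSeq (ω₁ ++ ω₂)) : ZMod 2) = 0 := by
    linear_combination -h5
  have h8 : List.count (g⁻¹ * t * g) (cs.leftInvSeq (ω₁ ++ ω₂)) ≤ 1 :=
    List.nodup_iff_count_le_one.1 h4.nodup_leftInvSeq _
  have h9 : List.count (g⁻¹ * t * g) (cs.leftInvSeq (ω₁ ++ ω₂)) = 0 := by
    interval_cases h : List.count (g⁻¹ * t * g) (cs.leftInvSeq (ω₁ ++ ω₂))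
    · rfl
    · simp at h7
  have h10 : cs.leftInvSeq ω₁ = (cs.leftInvSeq (ω₁ ++ ω₂)).take ω₁.length := by
    rw [← leftInvSeq_take, List.take_left]
  have h11 : List.count (g⁻¹ * t * g) (cs.leftInvSeq ω₁) = 0 := by
    rw [List.count_eq_zero] at h9 ⊢
    rw [h10]
    exact fun h => h9 (List.mem_of_mem_take h)
  rw [h6, h1', side_word, h11]
  simp

/-- a geodesic between points on different sides crosses the wall -/
theorem exists_crossing {g h t : W} (hs : side cs g t ≠ side cs h t) :
    ∃ (v : W) (i : B), t * v = v * cs.simple i ∧
      cs.length (g⁻¹ * v) + cs.length (v⁻¹ * h) = cs.length (g⁻¹ * h) := by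
  obtain ⟨ω, h1, h2⟩ := cs.exists_isReduced (g⁻¹ * h)
  have hh : h = g * cs.wordProd ω := by rw [← h2, mul_inv_cancel_left]
  obtain ⟨j, hj, hj1, hj2⟩ : ∃ j, j < ω.length ∧ side cs (g * cs.wordProd (ω.take j)) t = side cs g t ∧
      side cs (g * cs.wordProd (ω.take (j + 1))) t ≠ side cs g t := by
    by_contra hcon
    push Not at hcon
    have : ∀ j, j ≤ ω.length → side cs (g * cs.wordProd (ω.take j)) t = side cs g t := by
      intro j
      induction j with
      | zero => simp
      | succ j ih => exact fun hj => hcon j (by omega) (ih (by omega))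
    have h3 := this ω.length le_rfl
    rw [List.take_length, ← hh] at h3
    exact hs h3.symm
  refine ⟨g * cs.wordProd (ω.take j), ω[j], ?_, ?_⟩
  · by_contra hcon
    apply hj2
    rw [List.take_add_one, List.getElem?_eq_getElem hj, Option.toList_some, wordProd_append,
      wordProd_singleton, ← mul_assoc, side_mul_simple, if_neg hcon, add_zero, hj1]
  · have h3 : cs.length (cs.wordProd (ω.take j)) = j := by
      rw [(h1.take j).eq, List.length_take]
      omega
    have h4 : cs.length (cs.wordProd (ω.drop j)) = ω.length - j := by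
      rw [(h1.drop j).eq, List.length_drop]
    have h5 : (g * cs.wordProd (ω.take j))⁻¹ * h = cs.wordProd (ω.drop j) := by
      have h6 : cs.wordProd ω = cs.wordProd (ω.take j) * cs.wordProd (ω.drop j) := by
        rw [← wordProd_append, List.take_append_drop]
      rw [hh, h6]
      group
    rw [h5, inv_mul_cancel_left, h3, h4, h2, h1.eq]
    omega

end Pool.Agent.Lib.MP_529e02_al
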