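import Pool.Agent.Lib.MP_529e02_al.Fold

/-!
MP_529e02_al. Cutting the preimage of an arc into small pieces by folds along the arc.
-/

namespace Pool.Agent.Lib.MP_529e02_al

open Set Metric Topology

variable {X : Type*} [MetricSpace X] [CompactSpace X]

/-- the state after the folds at the first `j` cut points -/
private def St (γ : ℝ → X) (W : Set X) (η : ℝ) (τ : ℕ → ℝ) (j : ℕ) : Prop :=
  ∃ (r : X → X) (P Q B : Set X), Continuous r ∧ Ctl r ∧ (∀ x, x ∉ W → r x = x) ∧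
    IsClosed P ∧ IsClosed Q ∧ IsClosed B ∧ Disjoint P Q ∧ r ⁻¹' (γ '' Icc 0 1) ⊆ P ∪ Q ∧ Frag η P ∧
    Disjoint P (γ '' Icc (τ (j + 1)) 1) ∧ Q ⊆ γ '' Icc (τ j) 1 ∪ B ∧ B ⊆ ball (γ (τ j)) (η / 8) ∧
    Disjoint B (γ '' Icc (τ (j + 1)) 1)

omit [CompactSpace X] in
private theorem st_step (hX : Foldable X) {γ : ℝ → X} (hγ : Continuous γ) (hi : InjOn γ (Icc 0 1))
    {W : Set X} (hW : IsOpen W) (hAW : γ '' Icc 0 1 ⊆ W) {η : ℝ} (hη : 0 < η) {τ : ℕ → ℝ}
    (hτ : StrictMono τ) (hτ0 : ∀ j, 0 ≤ τ j) {j : ℕ} (hj : τ (j + 1) ≤ 1)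
    (hsm : ∀ a ∈ Icc (τ j) (τ (j + 1)), ∀ b ∈ Icc (τ j) (τ (j + 1)), dist (γ a) (γ b) < η / 8)
    (h : St γ W η τ j) : St γ W η τ (j + 1) := by
  obtain ⟨r, P, Q, B, hrc, hrl, hrW, hP, hQ, hB, hPQ, hpre, hfr, hPd, hQs, hBs, hBd⟩ := h
  set m : X := γ (τ (j + 1)) with hm
  have h12 : τ (j + 1) < τ (j + 2) := hτ (by omega)
  have h01 : τ j < τ (j + 1) := hτ (by omega)
  have hm1 : τ (j + 1) ∈ Icc (0 : ℝ) 1 := ⟨hτ0 _, hj⟩
  have hK : IsClosed (γ '' Icc (τ (j + 2)) 1) := (isCompact_Icc.image hγ).isClosed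
  have hmK : m ∉ γ '' Icc (τ (j + 2)) 1 := by
    rintro ⟨b, hb, hbm⟩
    have := hi ⟨(hτ0 _).trans hb.1, hb.2⟩ hm1 hbm
    rw [this] at hb
    exact absurd hb.1 (not_le.2 h12)
  have hmP : m ∉ P := fun h => disjoint_left.1 hPd h ⟨_, ⟨le_refl _, hj⟩, rfl⟩
  have hmB : m ∉ B := fun h => disjoint_left.1 hBd h ⟨_, ⟨le_refl _, hj⟩, rfl⟩
  obtain ⟨N, hN, hmN, hNs⟩ : ∃ N : Set X, IsOpen N ∧ m ∈ N ∧
      closure N ⊆ W ∩ ball m (η / 8) ∩ Pᶜ ∩ Bᶜ ∩ (γ '' Icc (τ (j + 2)) 1)ᶜ := by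
    obtain ⟨N, h1, h2, h3⟩ := normal_exists_closure_subset (isClosed_singleton (x := m))
      (((((hW.inter (isOpen_ball (x := m) (ε := η / 8))).inter hP.isOpen_compl).inter
        hB.isOpen_compl).inter hK.isOpen_compl))
      (singleton_subset_iff.2 ⟨⟨⟨⟨hAW ⟨_, hm1, rfl⟩, mem_ball_self (by positivity)⟩, hmP⟩, hmB⟩, hmK⟩)
    exact ⟨N, h1, singleton_subset_iff.1 h2, h3⟩
  have hNW : N ⊆ W := fun x hx => (hNs (subset_closure hx)).1.1.1.1
  have hNb : closure N ⊆ ball m (η / 8) := fun x hx => (hNs hx).1.1.1.2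
  have hNP : ∀ x ∈ closure N, x ∉ P := fun x hx => (hNs hx).1.1.2
  have hNK : ∀ x ∈ closure N, x ∉ γ '' Icc (τ (j + 2)) 1 := fun x hx => (hNs hx).2
  obtain ⟨f, t, O, hfc, hfN, hft, hO, hmO, hfO, -⟩ := hX m N hN hmN
  have hfl : Ctl f := by
    refine ⟨{Homeomorph.refl X, t}, by simp, fun x => ?_⟩
    rcases hft x with h | h
    · exact ⟨Homeomorph.refl X, by simp, h⟩
    · exact ⟨t, by simp, h⟩
  set Q1 : Set X := (Q ∩ (γ '' Icc (τ j) (τ (j + 1)) ∪ B)) \ O with hQ1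
  set Q2 : Set X := (Q ∩ γ '' Icc (τ (j + 1)) 1) \ O with hQ2
  have hQ1c : IsClosed Q1 := (hQ.inter (((isCompact_Icc.image hγ).isClosed).union hB)).sdiff hO
  have hQ2c : IsClosed Q2 := (hQ.inter (isCompact_Icc.image hγ).isClosed).sdiff hO
  have hQ12 : Disjoint Q1 Q2 := by
    rw [disjoint_left]
    rintro z ⟨⟨-, h1⟩, h2⟩ ⟨⟨-, ⟨b, hb, hbz⟩⟩, -⟩
    rcases h1 with ⟨a, ha, haz⟩ | h1
    · have hab := hi ⟨(hτ0 _).trans ha.1, ha.2.trans hj⟩ ⟨(hτ0 _).trans hb.1, hb.2⟩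
        (haz.trans hbz.symm)
      have h3 : a = τ (j + 1) := le_antisymm ha.2 (hab ▸ hb.1)
      apply h2
      rw [← haz, h3]
      exact hmO
    · exact disjoint_left.1 hBd h1 ⟨b, hb, hbz⟩
  have hQc : ∀ x, x ∈ Q → x ∉ O → x ∈ Q1 ∪ Q2 := by
    intro x hx hxO
    rcases hQs hx with ⟨a, ha, hax⟩ | h1
    · rcases le_total a (τ (j + 1)) with h2 | h2
      · exact Or.inl ⟨⟨hx, Or.inl ⟨a, ⟨ha.1, h2⟩, hax⟩⟩, hxO⟩
      · exact Or.inr ⟨⟨hx, ⟨a, ⟨h2, ha.2⟩, hax⟩⟩, hxO⟩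
    · exact Or.inl ⟨⟨hx, Or.inr h1⟩, hxO⟩
  have hPQ2 : Disjoint (P ∪ Q1) Q2 := by
    rw [disjoint_union_left]
    exact ⟨hPQ.mono_right fun x hx => hx.1.1, hQ12⟩
  have hPQ1 : Disjoint P Q1 := hPQ.mono_right fun x hx => hx.1.1
  have hQ1b : Q1 ⊆ ball m (η / 4) := by
    rintro z ⟨⟨-, ⟨a, ha, rfl⟩ | h1⟩, -⟩
    · rw [mem_ball]
      have := hsm a ha (τ (j + 1)) ⟨h01.le, le_refl _⟩
      linarith
    · rw [mem_ball]
      have h2 := mem_ball.1 (hBs h1)
      have h3 := hsm (τ j) ⟨le_refl _, h01.le⟩ (τ (j + 1)) ⟨h01.le, le_refl _⟩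
      have h4 := dist_triangle z (γ (τ j)) m
      linarith
  refine ⟨fun x => r (f x), f ⁻¹' (P ∪ Q1), f ⁻¹' Q2, closure N, hrc.comp hfc, hrl.comp hfl, ?_,
    (hP.union hQ1c).preimage hfc, hQ2c.preimage hfc, isClosed_closure, hPQ2.preimage f, ?_, ?_, ?_,
    ?_, hNb, ?_⟩
  · intro x hx
    have h1 : f x = x := hfN x fun h => hx (hNW h)
    change r (f x) = x
    rw [h1, hrW x hx]
  · intro x hx
    rcases hpre (show f x ∈ r ⁻¹' (γ '' Icc 0 1) from hx) with h1 | h1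
    · exact Or.inl (Or.inl h1)
    · rcases hQc _ h1 (hfO x) with h2 | h2
      · exact Or.inl (Or.inr h2)
      · exact Or.inr h2
  · -- the fragments
    set T : Set X := (f ⁻¹' (P ∪ Q1) ∩ closure N) ∪ Q1 \ N with hT
    have hTc : IsClosed T :=
      (((hP.union hQ1c).preimage hfc).inter isClosed_closure).union (hQ1c.sdiff hN)
    have hTP : ∀ x ∈ T, x ∉ P := by
      rintro x (⟨-, h1⟩ | ⟨h1, -⟩)
      · exact hNP x h1
      · exact fun h2 => disjoint_left.1 hPQ1 h2 h1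
    have hTsub : T ⊆ f ⁻¹' (P ∪ Q1) := by
      rintro x (⟨h1, -⟩ | ⟨h1, h2⟩)
      · exact h1
      · rw [mem_preimage, hfN x h2]
        exact Or.inr h1
    have hPsub : P ⊆ f ⁻¹' (P ∪ Q1) := by
      intro x hx
      rw [mem_preimage, hfN x fun h => hNP x (subset_closure h) hx]
      exact Or.inl hx
    have hcov : ∀ x, x ∈ f ⁻¹' (P ∪ Q1) → x ∈ P ∨ x ∈ T := by
      intro x hx
      by_cases h1 : x ∈ N
      · exact Or.inr (Or.inl ⟨hx, subset_closure h1⟩)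
      · rw [mem_preimage, hfN x h1] at hx
        rcases hx with h2 | h2
        · exact Or.inl h2
        · exact Or.inr (Or.inr ⟨h2, h1⟩)
    have hTb : T ⊆ ball m (η / 4) := by
      rintro x (⟨-, h1⟩ | ⟨h1, -⟩)
      · exact ball_subset_ball (by linarith) (hNb h1)
      · exact hQ1b h1
    intro x hx
    rcases hcov x hx with h1 | h1
    · obtain ⟨E, hE1, hE2, hE3, hE4, hE5⟩ := hfr x h1
      refine ⟨E, hE1.trans hPsub, hE2, hE3, ?_, hE5⟩
      have : f ⁻¹' (P ∪ Q1) \ E = (P \ E) ∪ T := by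
        ext z
        constructor
        · rintro ⟨h2, h3⟩
          rcases hcov z h2 with h4 | h4
          · exact Or.inl ⟨h4, h3⟩
          · exact Or.inr h4
        · rintro (⟨h2, h3⟩ | h2)
          · exact ⟨hPsub h2, h3⟩
          · exact ⟨hTsub h2, fun h3 => hTP z h2 (hE1 h3)⟩
      rw [this]
      exact hE4.union hTc
    · refine ⟨T, hTsub, h1, hTc, ?_, ?_⟩
      · have : f ⁻¹' (P ∪ Q1) \ T = P := by
          ext z
          constructor
          · rintro ⟨h2, h3⟩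
            exact (hcov z h2).resolve_right h3
          · intro h2
            exact ⟨hPsub h2, fun h3 => hTP z h3 h2⟩
        rw [this]
        exact hP
      · intro y hy
        have h2 := mem_ball.1 (hTb h1)
        have h3 := mem_ball'.1 (hTb hy)
        have h4 := dist_triangle x m y
        linarith
  · rw [disjoint_left]
    intro z hz hzK
    have h1 : z ∉ closure N := fun h => hNK z h hzK
    rw [mem_preimage, hfN z fun h => h1 (subset_closure h)] at hz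
    obtain ⟨b, hb, hbz⟩ := hzK
    rcases hz with hz | ⟨⟨-, ⟨a, ha, haz⟩ | hz⟩, -⟩
    · exact disjoint_left.1 hPd hz ⟨b, ⟨h12.le.trans hb.1, hb.2⟩, hbz⟩
    · have hab := hi ⟨(hτ0 _).trans ha.1, ha.2.trans hj⟩ ⟨(hτ0 _).trans hb.1, hb.2⟩
        (haz.trans hbz.symm)
      have h2 := ha.2
      rw [hab] at h2
      exact absurd (hb.1.trans h2) (not_le.2 h12)
    · exact disjoint_left.1 hBd hz ⟨b, ⟨h12.le.trans hb.1, hb.2⟩, hbz⟩
  · intro x hx
    by_cases h1 : x ∈ N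
    · exact Or.inr (subset_closure h1)
    · rw [mem_preimage, hfN x h1] at hx
      exact Or.inl hx.1.2
  · rw [disjoint_left]
    exact hNK

/-- Folding along an arc: a map which is the identity outside `W` and for which the preimage of the arc
falls into small pieces. -/
theorem exists_cut (hX : Foldable X) {γ : ℝ → X} (hγ : Continuous γ) (hi : InjOn γ (Icc 0 1))
    {W : Set X} (hW : IsOpen W) (hAW : γ '' Icc 0 1 ⊆ W) {η : ℝ} (hη : 0 < η) :
    ∃ r : X → X, Continuous r ∧ Ctl r ∧ (∀ x, x ∉ W → r x = x) ∧ Frag η (r ⁻¹' (γ '' Icc 0 1)) := by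
  obtain ⟨δ, hδ, hunif⟩ : ∃ δ, 0 < δ ∧ ∀ a ∈ Icc (0 : ℝ) 1, ∀ b ∈ Icc (0 : ℝ) 1, dist a b < δ →
      dist (γ a) (γ b) < η / 8 := by
    have := isCompact_Icc.uniformContinuousOn_of_continuous (hγ.continuousOn (s := Icc (0 : ℝ) 1))
    obtain ⟨δ, h1, h2⟩ := Metric.uniformContinuousOn_iff.1 this (η / 8) (by positivity)
    exact ⟨δ, h1, h2⟩
  obtain ⟨n, hn⟩ := exists_nat_one_div_lt hδ
  set τ : ℕ → ℝ := fun j => (j : ℝ) / (n + 1) with hτ
  have hn0 : (0 : ℝ) < n + 1 := by positivity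
  have hτm : StrictMono τ := by
    intro a b hab
    simp only [hτ]
    have : (a : ℝ) < b := by exact_mod_cast hab
    gcongr
  have hτ0 : ∀ j, 0 ≤ τ j := fun j => by positivity
  have hτ1 : ∀ j, j ≤ n + 1 → τ j ≤ 1 := by
    intro j hj
    simp only [hτ]
    rw [div_le_one hn0]
    exact_mod_cast hj
  have hτn : τ (n + 1) = 1 := by
    simp only [hτ]
    rw [Nat.cast_add, Nat.cast_one, div_self hn0.ne']
  have hsm : ∀ j, j ≤ n → ∀ a ∈ Icc (τ j) (τ (j + 1)), ∀ b ∈ Icc (τ j) (τ (j + 1)),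
      dist (γ a) (γ b) < η / 8 := by
    intro j hj a ha b hb
    have h1 := hτ0 j
    have h2 := hτ1 (j + 1) (by omega)
    apply hunif a ⟨h1.trans ha.1, ha.2.trans h2⟩ b ⟨h1.trans hb.1, hb.2.trans h2⟩
    rw [Real.dist_eq]
    have h3 : τ (j + 1) - τ j = 1 / (n + 1) := by
      simp only [hτ]
      push_cast
      ring
    rw [abs_lt]
    constructor <;> linarith [ha.1, ha.2, hb.1, hb.2]
  have hst : ∀ j, j ≤ n → St γ W η τ j := by
    intro j
    induction j with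
    | zero =>
      intro _
      have h0 : τ 0 = 0 := by simp [hτ]
      refine ⟨fun x => x, ∅, γ '' Icc 0 1, {γ 0}, continuous_id, Ctl.id, fun _ _ => rfl, isClosed_empty,
        (isCompact_Icc.image hγ).isClosed, isClosed_singleton, empty_disjoint _, ?_, ?_,
        empty_disjoint _, ?_, ?_, ?_⟩
      · intro x hx
        exact Or.inr hx
      · intro x hx
        exact absurd hx (notMem_empty x)
      · rw [h0]
        exact subset_union_left
      · rw [h0, singleton_subset_iff]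
        exact mem_ball_self (by positivity)
      · rw [disjoint_singleton_left]
        rintro ⟨b, hb, hb0⟩
        have h1 := hi ⟨(hτ0 _).trans hb.1, hb.2⟩ ⟨le_refl _, zero_le_one⟩ hb0
        have h2 : τ 0 < τ (0 + 1) := hτm (by omega)
        rw [h0] at h2
        linarith [hb.1]
    | succ j ih =>
      intro hj
      exact st_step hX hγ hi hW hAW hη hτm hτ0 (hτ1 _ (by omega)) (hsm j (by omega)) (ih (by omega))
  obtain ⟨r, P, Q, B, hrc, hrl, hrW, hP, hQ, hB, hPQ, hpre, hfr, hPd, hQs, hBs, hBd⟩ :=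
    hst n le_rfl
  refine ⟨r, hrc, hrl, hrW, Frag.mono (F := P ∪ Q) ?_
    ((isCompact_Icc.image hγ).isClosed.preimage hrc) hpre⟩
  have hQb : Q ⊆ ball (γ (τ n)) (η / 4) := by
    intro x hx
    rcases hQs hx with ⟨a, ha, rfl⟩ | h1
    · rw [mem_ball]
      have := hsm n le_rfl a ⟨ha.1, by rw [hτn]; exact ha.2⟩ (τ n) ⟨le_refl _, (hτm (by omega)).le⟩
      linarith
    · exact ball_subset_ball (by linarith) (hBs h1)
  rintro x (hx | hx)
  · obtain ⟨E, hE1, hE2, hE3, hE4, hE5⟩ := hfr x hx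
    refine ⟨E, hE1.trans subset_union_left, hE2, hE3, ?_, hE5⟩
    have : (P ∪ Q) \ E = (P \ E) ∪ Q := by
      rw [union_sdiff_distrib, (hPQ.symm.mono_right hE1).sdiff_eq_left]
    rw [this]
    exact hE4.union hQ
  · refine ⟨Q, subset_union_right, hx, hQ, ?_, ?_⟩
    · rw [union_sdiff_right, hPQ.sdiff_eq_left]
      exact hP
    · intro y hy
      have h2 := mem_ball.1 (hQb hx)
      have h3 := mem_ball'.1 (hQb hy)
      have h4 := dist_triangle x (γ (τ n)) y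
      linarith

end Pool.Agent.Lib.MP_529e02_al
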