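import Mathlib

/-!
MP_529e02_al. Hyperbolic Coxeter groups and their Gromov boundaries: definitions.
-/

namespace Pool.Agent.Lib.MP_529e02_al

open Set Filter Topology Uniformity

variable {B W : Type*} [Group W] {M : CoxeterMatrix B}

/-- the Gromov product `(x | y)` based at `1` for the word metric `d(x, y) = ℓ(x⁻¹ y)` given by the simple
reflections -/
noncomputable def gp (cs : CoxeterSystem M W) (x y : W) : ℝ :=
  ((cs.length x : ℝ) + cs.length y - cs.length (x⁻¹ * y)) / 2

/-- The Coxeter group is word-hyperbolic (the four point condition of Gromov; by left invariance it does not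
depend on the base point `1`). -/
def IsHyp (cs : CoxeterSystem M W) : Prop :=
  ∃ δ : ℝ, ∀ x y z : W, min (gp cs x y) (gp cs y z) - δ ≤ gp cs x z

theorem gp_comm (cs : CoxeterSystem M W) (x y : W) : gp cs x y = gp cs y x := by
  have h : cs.length (x⁻¹ * y) = cs.length (y⁻¹ * x) := by
    rw [← cs.length_inv, mul_inv_rev, inv_inv]
  rw [gp, gp, h]
  ring

theorem gp_self (cs : CoxeterSystem M W) (x : W) : gp cs x x = cs.length x := by
  rw [gp, inv_mul_cancel, cs.length_one]
  push_cast
  ring

theorem gp_le_left (cs : CoxeterSystem M W) (x y : W) : gp cs x y ≤ cs.length x := by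
  have h := cs.length_mul_le x (x⁻¹ * y)
  rw [mul_inv_cancel_left] at h
  have h' : (cs.length y : ℝ) ≤ cs.length x + cs.length (x⁻¹ * y) := by exact_mod_cast h
  rw [gp]
  linarith

theorem gp_le_right (cs : CoxeterSystem M W) (x y : W) : gp cs x y ≤ cs.length y := by
  rw [gp_comm]
  exact gp_le_left cs y x

theorem gp_nonneg (cs : CoxeterSystem M W) (x y : W) : 0 ≤ gp cs x y := by
  have h := cs.length_mul_le x⁻¹ y
  rw [cs.length_inv] at h
  have h' : (cs.length (x⁻¹ * y) : ℝ) ≤ cs.length x + cs.length y := by exact_mod_cast h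
  rw [gp]
  linarith

/-- the group as a set of points, carrying the uniform structure of the Gromov product -/
def Pts (cs : CoxeterSystem M W) (_h : IsHyp cs) : Type _ := W

/-- the group element underlying a point -/
def Pts.tw {cs : CoxeterSystem M W} {h : IsHyp cs} (x : Pts cs h) : W := x

/-- the point given by a group element -/
def Pts.of (cs : CoxeterSystem M W) (h : IsHyp cs) (w : W) : Pts cs h := w

/-- the basic entourages `x = y` or `(x | y) ≥ n` -/
def entP (cs : CoxeterSystem M W) (h : IsHyp cs) (n : ℕ) : Set (Pts cs h × Pts cs h) :=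
  {p | p.1 = p.2 ∨ (n : ℝ) ≤ gp cs p.1.tw p.2.tw}

theorem entP_anti (cs : CoxeterSystem M W) (h : IsHyp cs) {m n : ℕ} (hmn : m ≤ n) :
    entP cs h n ⊆ entP cs h m := by
  rintro p (hp | hp)
  · exact Or.inl hp
  · exact Or.inr ((by exact_mod_cast hmn : (m : ℝ) ≤ n).trans hp)

/-- The uniform structure on the group whose entourages are generated by the sets
`{(x, y) | x = y or (x | y) ≥ n}`. -/
noncomputable instance (cs : CoxeterSystem M W) (h : IsHyp cs) : UniformSpace (Pts cs h) :=
  UniformSpace.ofCore (UniformSpace.Core.mkOfBasis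
    { sets := range (entP cs h)
      nonempty := range_nonempty _
      inter_sets := by
        rintro _ _ ⟨m, rfl⟩ ⟨n, rfl⟩
        exact ⟨_, ⟨max m n, rfl⟩, fun p hp => ⟨entP_anti cs h (le_max_left m n) hp,
          entP_anti cs h (le_max_right m n) hp⟩⟩ }
    (by
      rintro _ ⟨n, rfl⟩ x
      exact Or.inl rfl)
    (by
      rintro _ ⟨n, rfl⟩
      refine ⟨_, ⟨n, rfl⟩, ?_⟩
      rintro ⟨x, y⟩ (hp | hp)
      · exact Or.inl (Eq.symm hp)
      · exact Or.inr (by rw [gp_comm] at hp; exact hp))
    (by
      rintro _ ⟨n, rfl⟩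
      obtain ⟨δ, hδ⟩ := h
      obtain ⟨k, hk⟩ := exists_nat_ge δ
      refine ⟨_, ⟨n + k, rfl⟩, ?_⟩
      rintro ⟨x, z⟩ ⟨y, hxy, hyz⟩
      have hle : (n : ℝ) ≤ ((n + k : ℕ) : ℝ) := by
        push_cast
        have : (0 : ℝ) ≤ k := Nat.cast_nonneg k
        linarith
      rcases hxy with hxy | hxy
      · have hxy' : x = y := hxy
        rw [hxy']
        exact entP_anti cs ⟨δ, hδ⟩ (Nat.le_add_right n k) hyz
      · rcases hyz with hyz | hyz
        · have hyz' : y = z := hyz
          rw [← hyz']
          exact Or.inr (hle.trans hxy)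
        · refine Or.inr ?_
          have h1 := hδ x.tw y.tw z.tw
          have h2 : ((n + k : ℕ) : ℝ) ≤ min (gp cs x.tw y.tw) (gp cs y.tw z.tw) := le_min hxy hyz
          push_cast at h2
          change (n : ℝ) ≤ gp cs x.tw z.tw
          linarith))

/-- The Gromov boundary of a hyperbolic Coxeter group: the points of the completion of the group (for the
uniform structure of the Gromov product) which are not in the image of the group. -/
def Bdry (cs : CoxeterSystem M W) (h : IsHyp cs) : Type _ :=
  {x : UniformSpace.Completion (Pts cs h) // x ∉ range ((↑) : Pts cs h → UniformSpace.Completion (Pts cs h))}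

noncomputable instance (cs : CoxeterSystem M W) (h : IsHyp cs) : TopologicalSpace (Bdry cs h) :=
  instTopologicalSpaceSubtype

/-- the subsets homeomorphic to the middle-thirds Cantor set -/
def IsCantorSet {X : Type*} [TopologicalSpace X] (C : Set X) : Prop := Nonempty (C ≃ₜ cantorSet)

/-- arcs: the subsets homeomorphic to `[0, 1]` -/
def IsArc {X : Type*} [TopologicalSpace X] (A : Set X) : Prop := Nonempty (A ≃ₜ unitInterval)

end Pool.Agent.Lib.MP_529e02_al
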