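import Pool.Agent.Lib.MP_529e02_al.Defs
import Pool.Agent.Lib.MP_529e02_al.Cox

/-!
MP_529e02_al. Half-spaces in a hyperbolic Coxeter group: near infinity, every point is separated from the rest
by a reflection with a small half-space.
-/

namespace Pool.Agent.Lib.MP_529e02_al

open Set CoxeterSystem

variable {B W : Type*} [Group W] {M : CoxeterMatrix B} (cs : CoxeterSystem M W)

private theorem len_tri (x y z : W) :
    (cs.length (x⁻¹ * z) : ℝ) ≤ cs.length (x⁻¹ * y) + cs.length (y⁻¹ * z) := by
  have h := cs.length_mul_le (x⁻¹ * y) (y⁻¹ * z)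
  have h1 : x⁻¹ * y * (y⁻¹ * z) = x⁻¹ * z := by group
  rw [h1] at h
  exact_mod_cast h

private theorem len_symm (x y : W) : cs.length (x⁻¹ * y) = cs.length (y⁻¹ * x) := by
  rw [← cs.length_inv, mul_inv_rev, inv_inv]

private theorem len_tri_one (x z : W) : (cs.length z : ℝ) ≤ cs.length x + cs.length (x⁻¹ * z) := by
  have h := len_tri cs 1 x z
  simpa using h

theorem nonneg_of_hyp {δ : ℝ} (hδ : ∀ x y z : W, min (gp cs x y) (gp cs y z) - δ ≤ gp cs x z) :
    0 ≤ δ := by
  have h := hδ 1 1 1
  rw [min_self] at h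
  linarith

theorem geodesic_gp {δ : ℝ} (hδ : ∀ x y z : W, min (gp cs x y) (gp cs y z) - δ ≤ gp cs x z)
    {g v h : W} (hv : cs.length (g⁻¹ * v) + cs.length (v⁻¹ * h) = cs.length (g⁻¹ * h)) :
    gp cs g h ≤ cs.length v ∧ gp cs g h - δ ≤ gp cs v g ∧ gp cs g h - δ ≤ gp cs v h := by
  have h0 := nonneg_of_hyp cs hδ
  have hv' : (cs.length (g⁻¹ * v) : ℝ) + cs.length (v⁻¹ * h) = cs.length (g⁻¹ * h) := by
    exact_mod_cast hv
  have h1 := len_tri_one cs v g
  have h2 := len_tri_one cs v h
  have h3 : cs.length (v⁻¹ * g) = cs.length (g⁻¹ * v) := len_symm cs v g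
  rw [h3] at h1
  have h4 : gp cs g h ≤ cs.length v := by
    rw [gp]
    linarith
  have h5 : gp cs v g + gp cs v h = cs.length v + gp cs g h := by
    rw [gp, gp, gp, h3]
    linarith
  refine ⟨h4, ?_, ?_⟩
  · rcases le_total (gp cs g h) (gp cs v g) with h6 | h6
    · linarith
    · have h7 : gp cs g h ≤ gp cs v h := by linarith
      have h8 := hδ v h g
      rw [gp_comm cs h g] at h8
      have h9 : gp cs g h ≤ min (gp cs v h) (gp cs g h) := le_min h7 le_rfl
      linarith
  · rcases le_total (gp cs g h) (gp cs v h) with h6 | h6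
    · linarith
    · have h7 : gp cs g h ≤ gp cs v g := by linarith
      have h8 := hδ v g h
      have h9 : gp cs g h ≤ min (gp cs v g) (gp cs g h) := le_min h7 le_rfl
      linarith

/-- the four point inequality for distances -/
private theorem four_point {δ : ℝ}
    (hδ : ∀ x y z : W, min (gp cs x y) (gp cs y z) - δ ≤ gp cs x z) (a p q v : W) :
    (cs.length (p⁻¹ * q) : ℝ) + cs.length (a⁻¹ * v) ≤
      max ((cs.length (a⁻¹ * p) : ℝ) + cs.length (v⁻¹ * q))
        ((cs.length (a⁻¹ * q) : ℝ) + cs.length (v⁻¹ * p)) + 2 * δ := by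
  have h := hδ (a⁻¹ * p) (a⁻¹ * v) (a⁻¹ * q)
  have e1 : (a⁻¹ * p)⁻¹ * (a⁻¹ * v) = p⁻¹ * v := by group
  have e2 : (a⁻¹ * v)⁻¹ * (a⁻¹ * q) = v⁻¹ * q := by group
  have e3 : (a⁻¹ * p)⁻¹ * (a⁻¹ * q) = p⁻¹ * q := by group
  rw [gp, gp, gp, e1, e2, e3, len_symm cs p v] at h
  rcases min_choice (((cs.length (a⁻¹ * p) : ℝ) + cs.length (a⁻¹ * v) - cs.length (v⁻¹ * p)) / 2)
    (((cs.length (a⁻¹ * v) : ℝ) + cs.length (a⁻¹ * q) - cs.length (v⁻¹ * q)) / 2) with h1 | h1
  · rw [h1] at h
    have h2 := le_max_right ((cs.length (a⁻¹ * p) : ℝ) + cs.length (v⁻¹ * q))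
      ((cs.length (a⁻¹ * q) : ℝ) + cs.length (v⁻¹ * p))
    linarith
  · rw [h1] at h
    have h2 := le_max_left ((cs.length (a⁻¹ * p) : ℝ) + cs.length (v⁻¹ * q))
      ((cs.length (a⁻¹ * q) : ℝ) + cs.length (v⁻¹ * p))
    linarith

/-- half-spaces far from the origin are small -/
theorem small_side {δ : ℝ} (hδ : ∀ x y z : W, min (gp cs x y) (gp cs y z) - δ ≤ gp cs x z) {t : W}
    {R : ℝ} (hR : ∀ h, side cs h t = 1 → R ≤ cs.length h) {h h' : W} (hh : side cs h t = 1)
    (hh' : side cs h' t = 1) : R - 1 - 2 * δ ≤ gp cs h h' := by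
  obtain ⟨ω, h1, h2⟩ := cs.exists_isReduced (h⁻¹ * h')
  set k := ω.length with hk
  have hkl : cs.length (h⁻¹ * h') = k := by rw [h2, h1.eq]
  have hle1 : cs.length h' ≤ cs.length h + k := by
    have := cs.length_mul_le h (h⁻¹ * h')
    rwa [mul_inv_cancel_left, hkl] at this
  have hle2 : cs.length h ≤ cs.length h' + k := by
    have := cs.length_mul_le h' (h'⁻¹ * h)
    rwa [mul_inv_cancel_left, ← len_symm, hkl] at this
  obtain ⟨j, hj, hj1, hj2⟩ : ∃ j, j ≤ k ∧ 2 * j ≤ cs.length h + k - cs.length h' ∧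
      cs.length h + k - cs.length h' ≤ 2 * j + 1 := ⟨(cs.length h + k - cs.length h') / 2, by omega,
        by omega, by omega⟩
  set v : W := h * cs.wordProd (ω.take j) with hv
  have h3 : cs.length (h⁻¹ * v) = j := by
    rw [hv, inv_mul_cancel_left, (h1.take j).eq, List.length_take]
    omega
  have h4 : cs.length (v⁻¹ * h') = k - j := by
    have h5 : v⁻¹ * h' = cs.wordProd (ω.drop j) := by
      have h6 : cs.wordProd ω = cs.wordProd (ω.take j) * cs.wordProd (ω.drop j) := by
        rw [← wordProd_append, List.take_append_drop]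
      have h7 : h' = h * cs.wordProd ω := by rw [← h2, mul_inv_cancel_left]
      rw [hv, h7, h6]
      group
    rw [h5, (h1.drop j).eq, List.length_drop]
  have hvs : side cs v t = 1 := by
    rw [← hh]
    exact side_convex cs (g := h) (v := v) (h := h') (by rw [h3, h4, hkl]; omega) (by rw [hh, hh'])
  have h5 := hR v hvs
  have h6 := hδ h v h'
  have h7 : ((k - j : ℕ) : ℝ) = (k : ℝ) - j := by
    rw [Nat.cast_sub hj]
  have hj1' : (2 : ℝ) * j + cs.length h' ≤ cs.length h + k := by
    have : 2 * j + cs.length h' ≤ cs.length h + k := by omega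
    exact_mod_cast this
  have hj2' : (cs.length h : ℝ) + k ≤ 2 * j + 1 + cs.length h' := by
    have : cs.length h + k ≤ 2 * j + 1 + cs.length h' := by omega
    exact_mod_cast this
  have h8 : (cs.length v + gp cs h h' - 1) / 2 ≤ min (gp cs h v) (gp cs v h') := by
    refine le_min ?_ ?_
    · rw [gp, gp, h3, hkl]
      linarith
    · rw [gp, gp, h4, hkl, h7]
      linarith
  linarith

theorem finite_ball [Finite B] (n : ℕ) : {w : W | cs.length w ≤ n}.Finite := by
  have h : {w : W | cs.length w ≤ n} ⊆ cs.wordProd '' {ω : List B | ω.length ≤ n} := by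
    intro w hw
    obtain ⟨ω, h1, h2⟩ := cs.exists_isReduced w
    refine ⟨ω, ?_, h2.symm⟩
    change ω.length ≤ n
    rw [← h1.eq, ← h2]
    exact hw
  exact ((List.finite_length_le B n).image _).subset h

/-- finitely many half-spaces come near the origin -/
theorem finite_near [Finite B] (n : ℕ) :
    {t : W | ∃ h, side cs h t = 1 ∧ cs.length h ≤ n}.Finite := by
  have h : {t : W | ∃ h, side cs h t = 1 ∧ cs.length h ≤ n} ⊆
      image2 (fun (v : W) (i : B) => v * cs.simple i * v⁻¹) {w : W | cs.length w ≤ n} univ := by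
    rintro t ⟨h, h1, h2⟩
    obtain ⟨v, i, h3, h4⟩ := exists_crossing cs (g := 1) (h := h) (t := t) (by
      rw [side_one, h1]
      decide)
    refine ⟨v, ?_, i, mem_univ i, ?_⟩
    · change cs.length v ≤ n
      rw [inv_one, one_mul, one_mul] at h4
      omega
    · change v * cs.simple i * v⁻¹ = t
      rw [← h3, mul_inv_cancel_right]
  exact ((finite_ball cs n).image2 _ (toFinite univ)).subset h

/-- a reflection whose wall is crossed early by the geodesic to `g` and again far out is close to the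
geodesic -/
private theorem close_wall {δ : ℝ} (hδ : ∀ x y z : W, min (gp cs x y) (gp cs y z) - δ ≤ gp cs x z)
    {ω : List B} (hω : cs.IsReduced ω) {i j : ℕ} (hij : i < j) (hj : j ≤ ω.length) {t : W}
    (ht : cs.IsReflection t) (hti : t * cs.wordProd (ω.take i) = cs.wordProd (ω.take (i + 1)))
    {v : W} {l : B} (hv : t * v = v * cs.simple l) (hgv : (j : ℝ) ≤ gp cs v (cs.wordProd ω)) :
    (cs.length ((cs.wordProd (ω.take j))⁻¹ * (t * cs.wordProd (ω.take j))) : ℝ) ≤ 1 + 4 * δ := by
  set a := cs.wordProd (ω.take i) with ha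
  set p := cs.wordProd (ω.take j) with hp
  set g := cs.wordProd ω with hg
  have hti' : t⁻¹ = t := ht.inv
  have la : cs.length a = i := by
    rw [ha, (hω.take i).eq, List.length_take]
    omega
  have lp : cs.length p = j := by
    rw [hp, (hω.take j).eq, List.length_take]
    omega
  have lap : cs.length (a⁻¹ * p) = j - i := by
    have h1 : (ω.take j) = ω.take i ++ (ω.drop i).take (j - i) := by
      rw [← List.take_add, Nat.add_sub_cancel' hij.le]
    have h2 : a⁻¹ * p = cs.wordProd ((ω.drop i).take (j - i)) := by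
      rw [hp, h1, wordProd_append, ← ha, inv_mul_cancel_left]
    rw [h2, ((hω.drop i).take (j - i)).eq, List.length_take, List.length_drop]
    omega
  have lpg : gp cs p g = j := by
    have h2 : p⁻¹ * g = cs.wordProd (ω.drop j) := by
      have h6 : g = p * cs.wordProd (ω.drop j) := by
        rw [hg, hp, ← wordProd_append, List.take_append_drop]
      rw [h6, inv_mul_cancel_left]
    have h3 : cs.length (p⁻¹ * g) = ω.length - j := by
      rw [h2, (hω.drop j).eq, List.length_drop]
    have h4 : cs.length g = ω.length := hω.eq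
    rw [gp, lp, h3, h4, Nat.cast_sub hj]
    ring
  -- distances
  have h1 : (j : ℝ) - δ ≤ gp cs p v := by
    have h2 := hδ p g v
    rw [lpg, gp_comm cs g v] at h2
    have h3 : (j : ℝ) ≤ min (j : ℝ) (gp cs v g) := le_min le_rfl hgv
    linarith
  have h2 : (cs.length (v⁻¹ * p) : ℝ) ≤ cs.length v - j + 2 * δ := by
    rw [gp, lp, len_symm cs p v] at h1
    linarith
  have h3 : (cs.length v : ℝ) - i ≤ cs.length (a⁻¹ * v) := by
    have := len_tri_one cs a v
    rw [la] at this
    linarith
  have h4 : (cs.length (a⁻¹ * p) : ℝ) = j - i := by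
    rw [lap, Nat.cast_sub hij.le]
  have h5 : (cs.length (v⁻¹ * (t * p)) : ℝ) ≤ cs.length (v⁻¹ * p) + 1 := by
    have h6 : v⁻¹ * (t * p) = (v * cs.simple l)⁻¹ * p := by
      rw [← hv, mul_inv_rev, hti', mul_assoc]
    rw [h6]
    have h7 := len_tri cs (v * cs.simple l) v p
    have h8 : (v * cs.simple l)⁻¹ * v = cs.simple l := by
      rw [mul_inv_rev, inv_simple, mul_assoc, inv_mul_cancel, mul_one]
    rw [h8, cs.length_simple] at h7
    push_cast at h7
    linarith
  have h6 : (cs.length (a⁻¹ * (t * p)) : ℝ) ≤ cs.length (a⁻¹ * p) + 1 := by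
    have h7 : a⁻¹ * (t * p) = (cs.wordProd (ω.take (i + 1)))⁻¹ * p := by
      rw [← hti, mul_inv_rev, hti', mul_assoc]
    rw [h7]
    have h8 := len_tri cs (cs.wordProd (ω.take (i + 1))) a p
    have h9 : (cs.wordProd (ω.take (i + 1)))⁻¹ * a = cs.simple (ω[i]'(by omega)) := by
      rw [List.take_add_one, List.getElem?_eq_getElem (by omega), Option.toList_some, wordProd_append,
        wordProd_singleton, ← ha, mul_inv_rev, inv_simple, mul_assoc, inv_mul_cancel, mul_one]
    rw [h9, cs.length_simple] at h8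
    push_cast at h8
    linarith
  have h7 := four_point cs hδ a p (t * p) v
  have h8 : max ((cs.length (a⁻¹ * p) : ℝ) + cs.length (v⁻¹ * (t * p)))
        ((cs.length (a⁻¹ * (t * p)) : ℝ) + cs.length (v⁻¹ * p)) ≤
      cs.length (a⁻¹ * p) + cs.length (v⁻¹ * p) + 1 := max_le (by linarith) (by linarith)
  linarith

/-- **Small half-spaces near infinity.** -/
theorem exists_small_side [Finite B] (h : IsHyp cs) (n : ℕ) : ∃ J : ℕ, ∀ S : Set W, S.Nonempty →
    (∀ g ∈ S, ∀ k ∈ S, (J : ℝ) ≤ gp cs g k) → ∃ t, cs.IsReflection t ∧ (∀ k ∈ S, side cs k t = 1) ∧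
      ∀ x y, side cs x t = 1 → side cs y t = 1 → (n : ℝ) ≤ gp cs x y := by
  classical
  obtain ⟨δ, hδ⟩ := h
  have hδ0 := nonneg_of_hyp cs hδ
  obtain ⟨N, hN⟩ := exists_nat_ge (n + 1 + 2 * δ)
  obtain ⟨C, hC⟩ := exists_nat_ge (1 + 4 * δ)
  obtain ⟨D, hD⟩ := exists_nat_ge δ
  set T0 : Finset W := (finite_near cs N).toFinset with hT0
  set T1 : Finset W := (finite_ball cs C).toFinset with hT1
  set j : ℕ := T0.card + T1.card + 1 with hj
  refine ⟨j + D, fun S hS hSg => ?_⟩
  obtain ⟨g, hg⟩ := hS
  obtain ⟨ω, hω, hgω⟩ := cs.exists_isReduced g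
  have hlen : j ≤ ω.length := by
    have h1 := hSg g hg g hg
    rw [gp_self, hgω, hω.eq] at h1
    have h2 : j + D ≤ ω.length := by exact_mod_cast h1
    omega
  have hll : (cs.leftInvSeq ω).length = ω.length := cs.length_leftInvSeq ω
  let τ : ℕ → W := fun i => (cs.leftInvSeq ω).getD i 1
  have hτ : ∀ i, (hi : i < ω.length) → τ i = (cs.leftInvSeq ω)[i]'(by rw [hll]; exact hi) := by
    intro i hi
    simp only [τ]
    rw [List.getD_eq_getElem _ _ (by rw [hll]; exact hi)]
  have hτr : ∀ i, i < ω.length → cs.IsReflection (τ i) := by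
    intro i hi
    rw [hτ i hi]
    exact cs.isReflection_of_mem_leftInvSeq ω (List.getElem_mem _)
  have hτinj : ∀ i, i < ω.length → ∀ i', i' < ω.length → τ i = τ i' → i = i' := by
    intro i hi i' hi' hii
    rw [hτ i hi, hτ i' hi'] at hii
    exact (List.Nodup.getElem_inj_iff hω.nodup_leftInvSeq).1 hii
  have hτg : ∀ i, i < ω.length → side cs g (τ i) = 1 := by
    intro i hi
    rw [hgω, side_word, hτ i hi, List.count_eq_one_of_mem hω.nodup_leftInvSeq (List.getElem_mem _)]
    simp
  have hτw : ∀ i, i < ω.length →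
      τ i * cs.wordProd (ω.take i) = cs.wordProd (ω.take (i + 1)) := by
    intro i hi
    rw [hτ i hi, getElem_leftInvSeq cs ω i hi, inv_mul_cancel_right, List.take_add_one,
      List.getElem?_eq_getElem hi, Option.toList_some, wordProd_append, wordProd_singleton]
  -- the good index
  obtain ⟨i, hi, hi0, hiS⟩ : ∃ i, i < j ∧ τ i ∉ T0 ∧ ∀ k ∈ S, side cs k (τ i) = 1 := by
    by_contra hcon
    push Not at hcon
    have hbad : ∀ i, i < j → τ i ∉ T0 → (cs.wordProd (ω.take j))⁻¹ * (τ i * cs.wordProd (ω.take j)) ∈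
        T1 := by
      intro i hi hi0
      obtain ⟨k, hk, hks⟩ := hcon i hi hi0
      obtain ⟨v, l, h1, h2⟩ := exists_crossing cs (g := g) (h := k) (t := τ i) (by
        rw [hτg i (by omega)]
        exact Ne.symm hks)
      have h3 := geodesic_gp cs hδ h2
      have h4 := hSg g hg k hk
      push_cast at h4
      rw [hT1, Set.Finite.mem_toFinset]
      change cs.length _ ≤ C
      have h5 := close_wall cs hδ hω hi hlen (hτr i (by omega)) (hτw i (by omega)) h1 (by
        rw [← hgω]
        linarith [h3.2.1])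
      exact_mod_cast h5.trans hC
    have h1 : (Finset.range j).card ≤ ((Finset.range j).filter fun i => τ i ∈ T0).card +
        ((Finset.range j).filter fun i => ¬ τ i ∈ T0).card :=
      (Finset.card_filter_add_card_filter_not _).ge
    have h2 : ((Finset.range j).filter fun i => τ i ∈ T0).card ≤ T0.card := by
      apply Finset.card_le_card_of_injOn τ
      · intro i hi
        exact (Finset.mem_filter.1 hi).2
      · intro i hi i' hi' hii
        have h3 := Finset.mem_range.1 (Finset.mem_filter.1 hi).1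
        have h4 := Finset.mem_range.1 (Finset.mem_filter.1 hi').1
        exact hτinj i (by omega) i' (by omega) hii
    have h3 : ((Finset.range j).filter fun i => ¬ τ i ∈ T0).card ≤ T1.card := by
      apply Finset.card_le_card_of_injOn
        (fun i => (cs.wordProd (ω.take j))⁻¹ * (τ i * cs.wordProd (ω.take j)))
      · intro i hi
        exact hbad i (Finset.mem_range.1 (Finset.mem_filter.1 hi).1) (Finset.mem_filter.1 hi).2
      · intro i hi i' hi' hii
        have h3 := Finset.mem_range.1 (Finset.mem_filter.1 hi).1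
        have h4 := Finset.mem_range.1 (Finset.mem_filter.1 hi').1
        exact hτinj i (by omega) i' (by omega) (mul_right_cancel (mul_left_cancel hii))
    rw [Finset.card_range] at h1
    omega
  refine ⟨τ i, hτr i (by omega), hiS, fun x y hx hy => ?_⟩
  have h1 := small_side cs hδ (t := τ i) (R := N) (fun k hk => by
    by_contra hcon
    push Not at hcon
    apply hi0
    rw [hT0, Set.Finite.mem_toFinset]
    exact ⟨k, hk, by exact_mod_cast hcon.le⟩) hx hy
  linarith

end Pool.Agent.Lib.MP_529e02_al
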