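import Pool.Agent.Lib.MP_529e02_al.Cut

/-!
MP_529e02_al. In a foldable compact metric space a separating arc gives a totally disconnected separator.
-/

namespace Pool.Agent.Lib.MP_529e02_al

open Set Metric Topology

variable {X : Type*} [MetricSpace X] [CompactSpace X]

/-- a stage of the construction -/
private structure Stg (X : Type*) [MetricSpace X] (A : Set X) where
  R : X → X
  O : Set X
  hR : Continuous R
  hc : Ctl R
  hO : IsOpen O
  hA : R ⁻¹' A ⊆ O

private theorem stg_step (hX : Foldable X) {γ : ℝ → X} (hγ : Continuous γ)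
    (hi : InjOn γ (Icc 0 1)) (S : Stg X (γ '' Icc 0 1)) {ε : ℝ} (hε : 0 < ε) :
    ∃ S' : Stg X (γ '' Icc 0 1), closure S'.O ⊆ S.O ∧ (∀ x, x ∉ S.O → S'.R x = S.R x) ∧
      Sml ε S'.O := by
  obtain ⟨η, hη, hpre⟩ := frag_preimage S.hR S.hc (ε := ε / 4) (by positivity)
  have hK : IsClosed (S.R '' S.Oᶜ) := (S.hO.isClosed_compl.isCompact.image S.hR).isClosed
  obtain ⟨r, hrc, hrl, hrW, hrf⟩ := exists_cut hX hγ hi (W := (S.R '' S.Oᶜ)ᶜ) hK.isOpen_compl (by
    rintro x hx ⟨y, hy, rfl⟩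
    exact hy (S.hA hx)) hη
  have hAc : IsClosed (γ '' Icc 0 1) := (isCompact_Icc.image hγ).isClosed
  have h1 := hpre _ (hAc.preimage hrc) hrf
  have hout : ∀ x, x ∉ S.O → r (S.R x) = S.R x := fun x hx => hrW _ fun h => h ⟨x, hx, rfl⟩
  have hsub : S.R ⁻¹' (r ⁻¹' (γ '' Icc 0 1)) ⊆ S.O := by
    intro x hx
    by_contra h
    rw [mem_preimage, mem_preimage, hout x h] at hx
    exact h (S.hA hx)
  obtain ⟨O, hO1, hO2, hO3, hO4⟩ := frag_open (by positivity) ((hAc.preimage hrc).preimage S.hR) h1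
    S.hO hsub
  refine ⟨⟨fun x => r (S.R x), O, hrc.comp S.hR, hrl.comp S.hc, hO1, hO2⟩, hO3, hout, ?_⟩
  have : 4 * (ε / 4) = ε := by ring
  rw [this] at hO4
  exact hO4

/-- **Theorem.** In a foldable compact metric space, if an arc separates `u` from `v`, then a totally
disconnected closed set separates `u` from `v`. -/
theorem exists_totallyDisconnected (hX : Foldable X) {γ : ℝ → X} (hγ : Continuous γ)
    (hi : InjOn γ (Icc 0 1)) {U V : Set X} (hU : IsOpen U) (hV : IsOpen V) (hUV : Disjoint U V)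
    (hc : U ∪ V = (γ '' Icc 0 1)ᶜ) {u v : X} (hu : u ∈ U) (hv : v ∈ V) :
    ∃ K U' V' : Set X, IsClosed K ∧ IsTotallyDisconnected K ∧ IsOpen U' ∧ IsOpen V' ∧
      Disjoint U' V' ∧ U' ∪ V' = Kᶜ ∧ u ∈ U' ∧ v ∈ V' := by
  have hstep : ∀ (S : Stg X (γ '' Icc 0 1)) (n : ℕ), ∃ S' : Stg X (γ '' Icc 0 1),
      closure S'.O ⊆ S.O ∧ (∀ x, x ∉ S.O → S'.R x = S.R x) ∧ Sml (1 / ((n : ℝ) + 1)) S'.O :=
    fun S n => stg_step hX hγ hi S (by positivity)
  choose F hF1 hF2 hF3 using hstep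
  have huA : u ∉ γ '' Icc 0 1 := by
    have : u ∈ (γ '' Icc 0 1)ᶜ := hc ▸ Or.inl hu
    exact this
  have hvA : v ∉ γ '' Icc 0 1 := by
    have : v ∈ (γ '' Icc 0 1)ᶜ := hc ▸ Or.inr hv
    exact this
  let S0 : Stg X (γ '' Icc 0 1) := ⟨fun x => x, {u, v}ᶜ, continuous_id, Ctl.id,
    (Set.toFinite {u, v}).isClosed.isOpen_compl, by
      rintro x hx (h | h)
      · exact huA (h ▸ hx)
      · rw [mem_singleton_iff] at h
        exact hvA (h ▸ hx)⟩
  let S : ℕ → Stg X (γ '' Icc 0 1) := fun n => Nat.rec S0 (fun n T => F T n) n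
  have hS0 : S 0 = S0 := rfl
  have hS : ∀ n, S (n + 1) = F (S n) n := fun n => rfl
  have hcl : ∀ n, closure (S (n + 1)).O ⊆ (S n).O := by
    intro n
    rw [hS]
    exact hF1 _ _
  have hR1 : ∀ n x, x ∉ (S n).O → (S (n + 1)).R x = (S n).R x := by
    intro n x hx
    rw [hS]
    exact hF2 _ _ x hx
  have hsml : ∀ n : ℕ, Sml (1 / ((n : ℝ) + 1)) (S (n + 1)).O := by
    intro n
    rw [hS]
    exact hF3 _ _
  have hanti : ∀ n k, (S (n + k)).O ⊆ (S n).O := by
    intro n k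
    induction k with
    | zero => exact subset_rfl
    | succ k ih => exact (subset_closure.trans (hcl (n + k))).trans ih
  have hRk : ∀ n k x, x ∉ (S n).O → (S (n + k)).R x = (S n).R x := by
    intro n k x hx
    induction k with
    | zero => rfl
    | succ k ih =>
      rw [← ih]
      exact hR1 (n + k) x fun h => hx (hanti n k h)
  have hcl' : ∀ n x, x ∉ closure (S n).O → x ∉ (S n).O := fun n x h h' => h (subset_closure h')
  have hRuv : ∀ n, (S n).R u = u ∧ (S n).R v = v := by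
    intro n
    have h1 := hRk 0 n u (by
      rw [hS0]
      exact fun h => h (Or.inl rfl))
    have h2 := hRk 0 n v (by
      rw [hS0]
      exact fun h => h (Or.inr rfl))
    rw [Nat.zero_add] at h1 h2
    exact ⟨h1, h2⟩
  refine ⟨⋂ n, closure (S n).O, ⋃ n, (S n).R ⁻¹' U \ closure (S n).O,
    ⋃ n, (S n).R ⁻¹' V \ closure (S n).O, isClosed_iInter fun n => isClosed_closure, ?_,
    isOpen_iUnion fun n => (hU.preimage (S n).hR).sdiff isClosed_closure,
    isOpen_iUnion fun n => (hV.preimage (S n).hR).sdiff isClosed_closure, ?_, ?_, ?_, ?_⟩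
  · intro T hT hTp x hx y hy
    by_contra hne
    obtain ⟨n, hn⟩ := exists_nat_one_div_lt (dist_pos.2 hne)
    have h1 : T ⊆ (S (n + 1)).O := by
      intro z hz
      exact hcl (n + 1) (mem_iInter.1 (hT hz) (n + 2))
    have h2 := hsml n T h1 hTp x hx y hy
    linarith
  · rw [disjoint_left]
    intro x hx hx'
    obtain ⟨n, hn1, hn2⟩ := mem_iUnion.1 hx
    obtain ⟨m, hm1, hm2⟩ := mem_iUnion.1 hx'
    rcases le_total n m with h | h
    · obtain ⟨k, rfl⟩ := Nat.exists_eq_add_of_le h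
      rw [mem_preimage, hRk n k x (hcl' n x hn2)] at hm1
      exact disjoint_left.1 hUV hn1 hm1
    · obtain ⟨k, rfl⟩ := Nat.exists_eq_add_of_le h
      rw [mem_preimage, hRk m k x (hcl' m x hm2)] at hn1
      exact disjoint_left.1 hUV hn1 hm1
  · ext x
    rw [mem_compl_iff, mem_iInter, not_forall, ← iUnion_union_distrib, mem_iUnion]
    constructor
    · rintro ⟨n, ⟨-, h⟩ | ⟨-, h⟩⟩
      · exact ⟨n, h⟩
      · exact ⟨n, h⟩
    · rintro ⟨n, hn⟩
      refine ⟨n, ?_⟩
      have h1 : (S n).R x ∈ U ∪ V := by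
        rw [hc]
        exact fun h => hcl' n x hn ((S n).hA h)
      rcases h1 with h1 | h1
      · exact Or.inl ⟨h1, hn⟩
      · exact Or.inr ⟨h1, hn⟩
  · refine mem_iUnion.2 ⟨1, ?_, fun h => ?_⟩
    · rw [mem_preimage, (hRuv 1).1]
      exact hu
    · have := hcl 0 h
      rw [hS0] at this
      exact this (Or.inl rfl)
  · refine mem_iUnion.2 ⟨1, ?_, fun h => ?_⟩
    · rw [mem_preimage, (hRuv 1).2]
      exact hv
    · have := hcl 0 h
      rw [hS0] at this
      exact this (Or.inr rfl)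

end Pool.Agent.Lib.MP_529e02_al
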