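import Pool.Agent.Lib.MP_529e02_al.Comp
import Pool.Agent.Lib.MP_529e02_al.Sep
import Pool.Agent.Lib.MP_529e02_al.Cantor
import Pool.Agent.Lib.MP_529e02_al.Brouwer

/-!
MP_529e02_al. In a foldable space, separation by an arc implies separation by a Cantor set.
-/

namespace Pool.Agent.Lib.MP_529e02_al

open Set Topology

theorem Foldable.of_homeomorph {X Y : Type*} [TopologicalSpace X] [TopologicalSpace Y] (e : X ≃ₜ Y)
    (hY : Foldable Y) : Foldable X := by
  intro m N hN hm
  obtain ⟨r, t, O, h1, h2, h3, h4, h5, h6, h7⟩ := hY (e m) (e.symm ⁻¹' N)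
    (hN.preimage e.symm.continuous) (by rw [mem_preimage, e.symm_apply_apply]; exact hm)
  refine ⟨fun x => e.symm (r (e x)), (e.trans t).trans e.symm, e ⁻¹' O,
    e.symm.continuous.comp (h1.comp e.continuous), ?_, ?_, h4.preimage e.continuous, h5, ?_, ?_⟩
  · intro x hx
    change e.symm (r (e x)) = x
    rw [h2 (e x) (by rw [mem_preimage, e.symm_apply_apply]; exact hx), e.symm_apply_apply]
  · intro x
    rcases h3 (e x) with h | h
    · left
      change e.symm (r (e x)) = x
      rw [h, e.symm_apply_apply]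
    · right
      change e.symm (r (e x)) = e.symm (t (e x))
      rw [h]
  · intro x hx
    rw [mem_preimage, e.apply_symm_apply] at hx
    exact h6 _ hx
  · intro x
    rcases h7 (e x) with h | h
    · left
      rw [mem_preimage, e.symm_apply_apply] at h
      exact h
    · exact Or.inr h

/-- a foldable space with at least three points has no isolated points -/
theorem Foldable.perfectSpace {X : Type*} [TopologicalSpace X] (hX : Foldable X) {a b c : X}
    (hab : a ≠ b) (hac : a ≠ c) (hbc : b ≠ c) : PerfectSpace X := by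
  rw [perfectSpace_iff_forall_not_isolated]
  intro m
  by_contra hm
  rw [Filter.not_neBot] at hm
  have h1 : IsOpen ({m} : Set X) := isOpen_singleton_iff_punctured_nhds m |>.2 hm
  obtain ⟨r, t, O, -, -, -, -, -, -, h7⟩ := hX m {m} h1 rfl
  have h2 : ∀ x, x = m ∨ t x = m := h7
  have h3 : ∀ x y, x ≠ y → t x = m → t y = m → False := fun x y hxy hx hy =>
    hxy (t.injective (hx.trans hy.symm))
  rcases h2 a with ha | ha
  · subst ha
    rcases h2 b with hb | hb
    · exact hab hb.symm
    · rcases h2 c with hc | hc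
      · exact hac hc.symm
      · exact h3 b c hbc hb hc
  · rcases h2 b with hb | hb
    · subst hb
      rcases h2 c with hc | hc
      · exact hbc hc.symm
      · exact h3 a c hac ha hc
    · exact h3 a b hab ha hb

/-- **Theorem.** If an arc separates a foldable compact metrizable space, then a Cantor set separates it. -/
theorem exists_cantorSet {X : Type*} [TopologicalSpace X] [CompactSpace X]
    [TopologicalSpace.MetrizableSpace X] (hX : Foldable X) {A : Set X} (hA : IsArc A)
    (hs : ¬ IsPreconnected Aᶜ) : ∃ C : Set X, IsCantorSet C ∧ ¬ IsPreconnected Cᶜ := by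
  let _ := TopologicalSpace.metrizableSpaceMetric X
  obtain ⟨e⟩ := hA
  set γ : ℝ → X := fun s => (e.symm (projIcc 0 1 zero_le_one s) : X) with hγ
  have hγc : Continuous γ := continuous_subtype_val.comp (e.symm.continuous.comp continuous_projIcc)
  have hγi : InjOn γ (Icc 0 1) := by
    intro s hs t ht hst
    have h1 := e.symm.injective (Subtype.ext hst)
    rw [projIcc_of_mem zero_le_one hs, projIcc_of_mem zero_le_one ht] at h1
    exact congrArg Subtype.val h1
  have hγA : γ '' Icc 0 1 = A := by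
    ext x
    constructor
    · rintro ⟨s, -, rfl⟩
      exact (e.symm _).2
    · intro hx
      refine ⟨e ⟨x, hx⟩, (e ⟨x, hx⟩).2, ?_⟩
      simp only [hγ]
      rw [projIcc_of_mem zero_le_one (e ⟨x, hx⟩).2]
      simp
  have hAc : IsClosed A := by
    rw [← hγA]
    exact (isCompact_Icc.image hγc).isClosed
  -- three points
  have hperf : PerfectSpace X := by
    have h0 : (0 : ℝ) ∈ Icc (0 : ℝ) 1 := ⟨le_rfl, zero_le_one⟩
    have h1 : (1 : ℝ) ∈ Icc (0 : ℝ) 1 := ⟨zero_le_one, le_rfl⟩
    have h2 : (1 / 2 : ℝ) ∈ Icc (0 : ℝ) 1 := ⟨by norm_num, by norm_num⟩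
    exact hX.perfectSpace (a := γ 0) (b := γ 1) (c := γ (1 / 2))
      (fun h => by have := hγi h0 h1 h; norm_num at this)
      (fun h => by have := hγi h0 h2 h; norm_num at this)
      (fun h => by have := hγi h1 h2 h; norm_num at this)
  -- the two sides
  obtain ⟨U, V, hU, hV, hUV, hc, ⟨u, hu⟩, ⟨v, hv⟩⟩ : ∃ U V : Set X, IsOpen U ∧ IsOpen V ∧
      Disjoint U V ∧ U ∪ V = Aᶜ ∧ U.Nonempty ∧ V.Nonempty := by
    unfold IsPreconnected at hs
    push Not at hs
    obtain ⟨U, V, hU, hV, hc, hUn, hVn, he⟩ := hs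
    refine ⟨Aᶜ ∩ U, Aᶜ ∩ V, hAc.isOpen_compl.inter hU, hAc.isOpen_compl.inter hV, ?_, ?_, hUn, hVn⟩
    · rw [disjoint_left]
      rintro x ⟨h1, h2⟩ ⟨-, h3⟩
      have : x ∈ Aᶜ ∩ (U ∩ V) := ⟨h1, h2, h3⟩
      rw [he] at this
      exact this
    · rw [← inter_union_distrib_left, inter_eq_left]
      exact hc
  rw [← hγA] at hc
  obtain ⟨K, U', V', h1, h2, h3, h4, h5, h6, h7, h8⟩ :=
    exists_totallyDisconnected hX hγc hγi hU hV hUV hc hu hv
  obtain ⟨C, ⟨h9, h10, h11, h12⟩, h13⟩ := exists_cantor_separator h1 h2 h3 h4 h5 h6 h7 h8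
  exact ⟨C, homeomorph_cantorSet h9 h10 h11 h12, h13⟩

/-- a middle part of an arc which is the whole space separates it -/
theorem exists_subarc {X : Type*} [TopologicalSpace X] {A : Set X} (hA : IsArc A)
    (hu : A = univ) : ∃ A' : Set X, IsArc A' ∧ ¬ IsPreconnected A'ᶜ := by
  obtain ⟨e⟩ := hA
  subst hu
  let f : X ≃ₜ unitInterval := (Homeomorph.Set.univ X).symm.trans e
  have : T2Space X := f.symm.t2Space
  let φ : unitInterval → unitInterval := fun s => ⟨(1 + 2 * s) / 4, by
    constructor <;> linarith [s.2.1, s.2.2]⟩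
  have hφc : Continuous φ := by
    apply Continuous.subtype_mk
    fun_prop
  have hφi : Function.Injective φ := by
    intro s t hst
    have h1 := congrArg Subtype.val hst
    simp only [φ] at h1
    apply Subtype.ext
    linarith
  let g : unitInterval → X := fun s => f.symm (φ s)
  have hg : IsEmbedding g := ((f.symm.continuous.comp hφc).isClosedEmbedding
    (f.symm.injective.comp hφi)).isEmbedding
  refine ⟨range g, ⟨hg.toHomeomorph.symm⟩, fun hcon => ?_⟩
  have h1 : IsPreconnected ((fun x => (f x : ℝ)) '' (range g)ᶜ) :=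
    hcon.image _ (continuous_subtype_val.comp f.continuous).continuousOn
  have hmem : ∀ s : unitInterval, (s : ℝ) < 1 / 4 ∨ 3 / 4 < (s : ℝ) → f.symm s ∈ (range g)ᶜ := by
    rintro s hs ⟨t, ht⟩
    have h2 := congrArg Subtype.val (f.symm.injective ht)
    simp only [φ] at h2
    rcases hs with h | h <;> linarith [t.2.1, t.2.2]
  have h2 : (0 : ℝ) ∈ (fun x => (f x : ℝ)) '' (range g)ᶜ :=
    ⟨f.symm 0, hmem 0 (Or.inl (by norm_num)), by simp⟩
  have h3 : (1 : ℝ) ∈ (fun x => (f x : ℝ)) '' (range g)ᶜ :=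
    ⟨f.symm 1, hmem 1 (Or.inr (by norm_num)), by simp⟩
  obtain ⟨x, hx, hx2⟩ := h1.ordConnected.out h2 h3 (show (1 / 2 : ℝ) ∈ Icc (0 : ℝ) 1 by
    constructor <;> norm_num)
  apply hx
  refine ⟨⟨1 / 2, by norm_num, by norm_num⟩, ?_⟩
  apply f.injective
  apply Subtype.ext
  simp only [g, φ, Homeomorph.apply_symm_apply]
  simp only at hx2
  rw [hx2]
  norm_num

end Pool.Agent.Lib.MP_529e02_al
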